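import Pool.Agent.Helper1.FX.Family
import Pool.Agent.Helper73.FX.Neigh

/-! MP_be0fb5, full answer: bounds for the forms of balanced chain simplices, the width inequality, and uniform
ellipticity from lower bounds of the cut sums. -/

set_option autoImplicit false

namespace Pool.Agent.Helper1.FX

open Matrix Pool.Agent.Helper12.LW
open Pool.Agent.Helper84.FL (Superbase pz pr)

/-- the slacks sum to one -/
theorem slack_sum {K : Set (Fin 3 → ℝ)} {P : Fin 4 → Fin 3 → ℤ} {v : Fin 4 → Fin 3 → ℝ} (hv : Sep4 K P v)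
    (y : Fin 3 → ℝ) : ∑ j, v j ⬝ᵥ (toR (P j) - y) = 1 := by
  have h2 : ∑ j, v j ⬝ᵥ y = (∑ j, v j) ⬝ᵥ y := by
    simp only [dotProduct, Finset.sum_apply, Finset.sum_mul]
    exact Finset.sum_comm
  simp only [dotProduct_sub]
  rw [Finset.sum_sub_distrib, hv.norm_one, h2, hv.sum_zero, zero_dotProduct, sub_zero]

theorem slack_nonneg {K : Set (Fin 3 → ℝ)} {P : Fin 4 → Fin 3 → ℤ} {v : Fin 4 → Fin 3 → ℝ} (hv : Sep4 K P v)
    {y : Fin 3 → ℝ} (hy : y ∈ K) (j : Fin 4) : 0 ≤ v j ⬝ᵥ (toR (P j) - y) := by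
  rw [dotProduct_sub]
  exact sub_nonneg.2 (hv.sep j y hy)

theorem slack_le_one {K : Set (Fin 3 → ℝ)} {P : Fin 4 → Fin 3 → ℤ} {v : Fin 4 → Fin 3 → ℝ} (hv : Sep4 K P v)
    {y : Fin 3 → ℝ} (hy : y ∈ K) (j : Fin 4) : v j ⬝ᵥ (toR (P j) - y) ≤ 1 := by
  rw [← slack_sum hv y]
  exact Finset.single_le_sum (f := fun j => v j ⬝ᵥ (toR (P j) - y)) (fun j _ => slack_nonneg hv hy j)
    (Finset.mem_univ j)

/-- the form of a balanced system is at most two on the difference body -/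
theorem gram_le_two {K : Set (Fin 3 → ℝ)} {P : Fin 4 → Fin 3 → ℤ} {v : Fin 4 → Fin 3 → ℝ} (hv : Sep4 K P v)
    {x x' : Fin 3 → ℝ} (hx : x ∈ K) (hx' : x' ∈ K) : qf (gram v) (x - x') ≤ 2 := by
  rw [qf_gram]
  have h1 : ∀ k, (v k ⬝ᵥ (x - x')) ^ 2 ≤ v k ⬝ᵥ (toR (P k) - x) + v k ⬝ᵥ (toR (P k) - x') := by
    intro k
    have e : v k ⬝ᵥ (x - x') = v k ⬝ᵥ (toR (P k) - x') - v k ⬝ᵥ (toR (P k) - x) := by
      simp only [dotProduct_sub]
      ring
    have a0 := slack_nonneg hv hx k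
    have a1 := slack_le_one hv hx k
    have b0 := slack_nonneg hv hx' k
    have b1 := slack_le_one hv hx' k
    rw [e]
    nlinarith [mul_nonneg a0 b0]
  calc ∑ k, (v k ⬝ᵥ (x - x')) ^ 2 ≤ ∑ k, (v k ⬝ᵥ (toR (P k) - x) + v k ⬝ᵥ (toR (P k) - x')) :=
        Finset.sum_le_sum (fun k _ => h1 k)
    _ = 2 := by
        rw [Finset.sum_add_distrib, slack_sum hv, slack_sum hv]
        norm_num

/-- bound for the entries of the form of a balanced system -/
theorem gram_bound (K : Set (Fin 3 → ℝ)) (hint : (interior K).Nonempty) : ∃ C0 : ℝ, 0 ≤ C0 ∧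
    ∀ (P : Fin 4 → Fin 3 → ℤ) (v : Fin 4 → Fin 3 → ℝ), Sep4 K P v → ∀ a b, |gram v a b| ≤ C0 := by
  obtain ⟨c, hc⟩ := hint
  have hcK : c ∈ K := interior_subset hc
  rw [mem_interior_iff_mem_nhds, Metric.mem_nhds_iff] at hc
  obtain ⟨ε, hε, hb⟩ := hc
  set r := ε / 2 with hr
  have hr0 : 0 < r := by positivity
  refine ⟨4 / r ^ 2, by positivity, ?_⟩
  intro P v hv a b
  have hmem : ∀ (t : ℝ) (a : Fin 3), |t| ≤ r → c + t • (Pi.single a 1 : Fin 3 → ℝ) ∈ K := by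
    intro t a ht
    apply hb
    rw [Metric.mem_ball, dist_eq_norm, add_sub_cancel_left, norm_smul, Real.norm_eq_abs]
    have h1 : ‖(Pi.single a 1 : Fin 3 → ℝ)‖ ≤ 1 := by
      rw [pi_norm_le_iff_of_nonneg zero_le_one]
      intro i
      by_cases h : i = a
      · subst h; simp
      · simp [h]
    have h2 : |t| * ‖(Pi.single a 1 : Fin 3 → ℝ)‖ ≤ r * 1 :=
      mul_le_mul ht h1 (norm_nonneg _) hr0.le
    linarith
  have hva : ∀ k a, |v k a| ≤ 1 / r := by
    intro k a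
    have e : ∀ t : ℝ, v k ⬝ᵥ (toR (P k) - (c + t • (Pi.single a 1 : Fin 3 → ℝ))) =
        v k ⬝ᵥ (toR (P k) - c) - t * v k a := by
      intro t
      rw [← sub_sub, dotProduct_sub (v k) (toR (P k) - c), dotProduct_smul, dotProduct_single, mul_one,
        smul_eq_mul]
    have h1 := slack_nonneg hv (hmem r a (by rw [abs_of_pos hr0])) k
    have h2 := slack_nonneg hv (hmem (-r) a (by rw [abs_neg, abs_of_pos hr0])) k
    have h3 := slack_le_one hv hcK k
    rw [e] at h1 h2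
    rw [abs_le]
    have h4 : r * (1 / r) = 1 := by field_simp
    constructor
    · by_contra hcon
      push Not at hcon
      nlinarith
    · by_contra hcon
      push Not at hcon
      nlinarith
  rw [gram_apply]
  refine (Finset.abs_sum_le_sum_abs _ _).trans ?_
  have h1 : ∀ k, |v k a * v k b| ≤ 1 / r * (1 / r) := by
    intro k
    rw [abs_mul]
    exact mul_le_mul (hva k a) (hva k b) (abs_nonneg _) (by positivity)
  have h2 : ∑ k, |v k a * v k b| ≤ ∑ _k : Fin 4, 1 / r * (1 / r) := Finset.sum_le_sum (fun k _ => h1 k)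
  refine h2.trans (le_of_eq ?_)
  rw [Finset.sum_const, Finset.card_univ, Fintype.card_fin, nsmul_eq_mul]
  push_cast
  field_simp

theorem posDef_symm {Q : Matrix (Fin 3) (Fin 3) ℝ} (hQ : Q.PosDef) : Q.IsSymm := by
  have := hQ.isHermitian.eq
  rwa [conjTranspose_eq_transpose_of_trivial] at this

/-- Cauchy-Schwarz for a form and its inverse -/
theorem cs_inv {Q : Matrix (Fin 3) (Fin 3) ℝ} (hQ : Q.PosDef) (u d : Fin 3 → ℝ) :
    (u ⬝ᵥ d) ^ 2 ≤ qf Q⁻¹ u * qf Q d := by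
  have hu : IsUnit Q.det := hQ.det_pos.ne'.isUnit
  have hs := posDef_symm hQ
  -- `u = Q p`
  set p := Q⁻¹ *ᵥ u with hp
  have hQp : Q *ᵥ p = u := by
    rw [hp, mulVec_mulVec, mul_nonsing_inv _ hu, one_mulVec]
  have e1 : qf Q⁻¹ u = qf Q p := by
    unfold qf
    rw [hQp, ← hp, dotProduct_comm]
  have hsymm : ∀ a b : Fin 3 → ℝ, a ⬝ᵥ Q *ᵥ b = b ⬝ᵥ Q *ᵥ a := by
    intro a b
    rw [dotProduct_mulVec, ← mulVec_transpose, hs.eq, dotProduct_comm]
  have e2 : u ⬝ᵥ d = p ⬝ᵥ Q *ᵥ d := by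
    rw [hsymm p d, hQp, dotProduct_comm]
  have h0 : ∀ t : ℝ, 0 ≤ qf Q p * (t * t) + 2 * (p ⬝ᵥ Q *ᵥ d) * t + qf Q d := by
    intro t
    have h1 := hQ.posSemidef.dotProduct_mulVec_nonneg (t • p + d)
    have h2 : (t • p + d) ⬝ᵥ Q *ᵥ (t • p + d) =
        qf Q p * (t * t) + 2 * (p ⬝ᵥ Q *ᵥ d) * t + qf Q d := by
      unfold qf
      rw [mulVec_add, mulVec_smul, dotProduct_add, add_dotProduct, add_dotProduct, dotProduct_smul,
        dotProduct_smul, smul_dotProduct, smul_dotProduct, hsymm d p]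
      simp only [smul_eq_mul]
      ring
    rw [← h2]
    simpa using h1
  have h3 := discrim_le_zero h0
  unfold discrim at h3
  rw [e1, e2]
  nlinarith

/-- a gap in four real numbers -/
theorem gap (ξ : Fin 4 → ℝ) (i j : Fin 4) (h : ξ i < ξ j) : ∃ A : Finset (Fin 4), A.Nonempty ∧
    A ≠ Finset.univ ∧ ∀ a ∈ A, ∀ b, b ∉ A → (ξ j - ξ i) / 3 ≤ ξ b - ξ a := by
  classical
  set D := ξ j - ξ i with hD
  have hD0 : 0 < D := sub_pos.2 h
  have hne : ∀ t : ℝ, ξ i ≤ t → t < ξ j →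
      (Finset.univ.filter fun a => ξ a ≤ t).Nonempty ∧ (Finset.univ.filter fun a => ξ a ≤ t) ≠ Finset.univ := by
    intro t h1 h2
    refine ⟨⟨i, by rw [Finset.mem_filter]; exact ⟨Finset.mem_univ _, h1⟩⟩, ?_⟩
    intro h3
    have h4 : j ∈ Finset.univ.filter fun a => ξ a ≤ t := by rw [h3]; exact Finset.mem_univ _
    rw [Finset.mem_filter] at h4
    linarith [h4.2]
  by_cases h0 : ∀ b, ξ i < ξ b → ξ i + D / 3 ≤ ξ b
  · refine ⟨Finset.univ.filter fun a => ξ a ≤ ξ i, (hne _ le_rfl h).1, (hne _ le_rfl h).2, ?_⟩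
    intro a ha b hb
    rw [Finset.mem_filter] at ha hb
    have hb' : ξ i < ξ b := by
      by_contra hcon
      exact hb ⟨Finset.mem_univ _, not_lt.1 hcon⟩
    linarith [h0 b hb', ha.2]
  push Not at h0
  obtain ⟨b1, h1, h1'⟩ := h0
  by_cases h0 : ∀ b, ξ i + D / 3 < ξ b → ξ i + 2 * D / 3 ≤ ξ b
  · refine ⟨Finset.univ.filter fun a => ξ a ≤ ξ i + D / 3, (hne _ (by linarith) (by linarith)).1,
      (hne _ (by linarith) (by linarith)).2, ?_⟩
    intro a ha b hb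
    rw [Finset.mem_filter] at ha hb
    have hb' : ξ i + D / 3 < ξ b := by
      by_contra hcon
      exact hb ⟨Finset.mem_univ _, not_lt.1 hcon⟩
    linarith [h0 b hb', ha.2]
  push Not at h0
  obtain ⟨b2, h2, h2'⟩ := h0
  refine ⟨Finset.univ.filter fun a => ξ a ≤ ξ i + 2 * D / 3, (hne _ (by linarith) (by linarith)).1,
    (hne _ (by linarith) (by linarith)).2, ?_⟩
  intro a ha b hb
  rw [Finset.mem_filter] at ha hb
  have hb' : ξ i + 2 * D / 3 < ξ b := by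
    by_contra hcon
    exact hb ⟨Finset.mem_univ _, not_lt.1 hcon⟩
  -- `b` is the fourth index
  have n1 : i ≠ b1 := fun e => by rw [← e] at h1; exact lt_irrefl _ h1
  have n2 : i ≠ b2 := fun e => by rw [← e] at h2; linarith
  have n3 : b1 ≠ b2 := fun e => by rw [← e] at h2; linarith
  have n4 : j ≠ i := fun e => by rw [e] at h; exact lt_irrefl _ h
  have n5 : j ≠ b1 := fun e => by rw [← e] at h1'; linarith
  have n6 : j ≠ b2 := fun e => by rw [← e] at h2'; linarith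
  have n7 : b ≠ i := fun e => by rw [e] at hb'; linarith
  have n8 : b ≠ b1 := fun e => by rw [e] at hb'; linarith
  have n9 : b ≠ b2 := fun e => by rw [e] at hb'; linarith
  have hall : ∀ i b1 b2 j b : Fin 4, i ≠ b1 → i ≠ b2 → b1 ≠ b2 → j ≠ i → j ≠ b1 → j ≠ b2 →
      b ≠ i → b ≠ b1 → b ≠ b2 → b = j := by decide
  have hbj := hall i b1 b2 j b n1 n2 n3 n4 n5 n6 n7 n8 n9
  rw [hbj]
  linarith [ha.2]

end Pool.Agent.Helper1.FX
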