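import Pool.Agent.Helper1.FX.Bounds

/-! MP_be0fb5, full answer: lower bounds of the cut sums of an obtuse superbase give uniform ellipticity. -/

set_option autoImplicit false

namespace Pool.Agent.Helper1.FX

open Matrix Pool.Agent.Helper12.LW
open Pool.Agent.Helper84.FL (Superbase pz pr)
open Pool.Agent.Helper73.FX (sp selling selling_qf sp_comm)

/-- the coordinates of a vector -/
theorem coord (f : Fin 4 → Fin 3 → ℤ) (hf : Superbase f) (w : Fin 4 → Fin 3 → ℤ)
    (hw : ∀ i l, ∑ k, w i k * f l k = (if l = i then 1 else 0) - (if l = 3 then 1 else 0))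
    (x : Fin 3 → ℝ) : ∑ l, (toR (w l) ⬝ᵥ x) • toR (f l) = x := by
  have hw' : ∀ i l, ∑ k, (w i k : ℝ) * (f l k : ℝ)
      = (if l = i then 1 else 0) - (if l = 3 then 1 else 0) := by
    intro i l
    have := congrArg (Int.cast : ℤ → ℝ) (hw i l)
    push_cast at this
    exact this
  -- both sides have the same products with the real dual vectors
  set F : Matrix (Fin 3) (Fin 3) ℝ := Matrix.of fun k l => (f l.castSucc k : ℝ) with hF
  set M : Matrix (Fin 3) (Fin 3) ℝ := Matrix.of fun i k => (w i.castSucc k : ℝ) with hM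
  have hMF : M * F = 1 := by
    ext i l
    rw [Matrix.mul_apply, Matrix.one_apply]
    simp only [hF, hM, Matrix.of_apply]
    rw [hw']
    have h3 : l.castSucc ≠ (3 : Fin 4) := by
      intro h
      have := congrArg Fin.val h
      simp at this
      omega
    rw [if_neg h3, sub_zero]
    simp only [Fin.castSucc_inj, eq_comm (a := l)]
  have hFM : F * M = 1 := mul_eq_one_comm.1 hMF
  have h3 : toR (w 3) ⬝ᵥ x = 0 := by
    have h4 : w 3 = 0 := by
      have h5 : ∀ l, ∑ k, w 3 k * f l k = 0 := by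
        intro l
        rw [hw]
        ring
      have h6 : (fun k => (w 3 k : ℝ)) = 0 := by
        apply Pool.Agent.Helper84.FL.eq_of_pz f hf
        intro l
        unfold Pool.Agent.Helper84.FL.pz
        have := congrArg (Int.cast : ℤ → ℝ) (h5 l)
        push_cast at this
        rw [this]
        simp
      funext k
      have := congrFun h6 k
      simp only [Pi.zero_apply, Int.cast_eq_zero] at this
      exact this
    have h7 : toR (0 : Fin 3 → ℤ) = 0 := by
      funext k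
      exact Int.cast_zero
    rw [h4, h7, zero_dotProduct]
  have h5 : F *ᵥ (M *ᵥ x) = x := by rw [mulVec_mulVec, hFM, one_mulVec]
  rw [Fin.sum_univ_castSucc]
  have h6 : (Fin.last 3 : Fin 4) = 3 := rfl
  rw [h6, h3, zero_smul, add_zero]
  conv_rhs => rw [← h5]
  funext k
  rw [Finset.sum_apply]
  simp only [Pi.smul_apply, smul_eq_mul, Matrix.mulVec, dotProduct, hF, hM, Matrix.of_apply, toR]
  exact Finset.sum_congr rfl (fun l _ => mul_comm _ _)

/-- the entries of a superbase are bounded by the square of the entries of the dual basis -/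
theorem sb_entries (f : Fin 4 → Fin 3 → ℤ) (w : Fin 4 → Fin 3 → ℤ)
    (hw : ∀ i l, ∑ k, w i k * f l k = (if l = i then 1 else 0) - (if l = 3 then 1 else 0))
    (B : ℝ) (hB : ∀ i k, (w i k : ℝ) ^ 2 ≤ B) (l : Fin 3) (k : Fin 3) : |(f l.castSucc k : ℝ)| ≤ 2 * B := by
  set F : Matrix (Fin 3) (Fin 3) ℤ := Matrix.of fun k l => f l.castSucc k with hF
  set M : Matrix (Fin 3) (Fin 3) ℤ := Matrix.of fun i k => w i.castSucc k with hM
  have hMF : M * F = 1 := by
    ext i l
    rw [Matrix.mul_apply, Matrix.one_apply]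
    simp only [hF, hM, Matrix.of_apply]
    rw [hw]
    have h3 : l.castSucc ≠ (3 : Fin 4) := by
      intro h
      have := congrArg Fin.val h
      simp at this
      omega
    rw [if_neg h3, sub_zero]
    simp only [Fin.castSucc_inj, eq_comm (a := l)]
  have h1 : M.adjugate = M.det • F := by
    have h2 : M.adjugate * (M * F) = M.det • F := by
      rw [← Matrix.mul_assoc, Matrix.adjugate_mul, Matrix.smul_mul, Matrix.one_mul]
    rw [← h2, hMF, Matrix.mul_one]
  have hdet : M.det = 1 ∨ M.det = -1 := by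
    have h2 : M.det * F.det = 1 := by rw [← Matrix.det_mul, hMF, Matrix.det_one]
    exact Int.eq_one_or_neg_one_of_mul_eq_one h2
  have habs : |(f l.castSucc k : ℝ)| = |((M.adjugate k l : ℤ) : ℝ)| := by
    rw [h1]
    rcases hdet with h | h
    · rw [h]
      simp [hF]
    · rw [h]
      simp [hF]
  rw [habs]
  have hpr : ∀ i j k l, |(M i k : ℝ) * (M j l : ℝ)| ≤ B := by
    intro i j k l
    have a := hB i.castSucc k
    have b := hB j.castSucc l
    have e1 : (M i k : ℝ) = (w i.castSucc k : ℝ) := rfl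
    have e2 : (M j l : ℝ) = (w j.castSucc l : ℝ) := rfl
    rw [e1, e2, abs_le]
    constructor
    · nlinarith [sq_nonneg ((w i.castSucc k : ℝ) + (w j.castSucc l : ℝ))]
    · nlinarith [sq_nonneg ((w i.castSucc k : ℝ) - (w j.castSucc l : ℝ))]
  have key : ∃ i j i' j' a b a' b' : Fin 3, ((M.adjugate k l : ℤ) : ℝ) =
      (M i a : ℝ) * (M j b : ℝ) - (M i' a' : ℝ) * (M j' b' : ℝ) := by
    rw [Matrix.adjugate_fin_three]
    fin_cases k <;> fin_cases l
    · exact ⟨1, 2, 1, 2, 1, 2, 2, 1, by simp⟩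
    · exact ⟨0, 2, 0, 2, 2, 1, 1, 2, by simp; ring⟩
    · exact ⟨0, 1, 0, 1, 1, 2, 2, 1, by simp⟩
    · exact ⟨1, 2, 1, 2, 2, 0, 0, 2, by simp; ring⟩
    · exact ⟨0, 2, 0, 2, 0, 2, 2, 0, by simp⟩
    · exact ⟨0, 1, 0, 1, 2, 0, 0, 2, by simp; ring⟩
    · exact ⟨1, 2, 1, 2, 0, 1, 1, 0, by simp⟩
    · exact ⟨0, 2, 0, 2, 1, 0, 0, 1, by simp; ring⟩
    · exact ⟨0, 1, 0, 1, 0, 1, 1, 0, by simp⟩
  obtain ⟨i, j, i', j', a, b, a', b', he⟩ := key
  rw [he]
  refine (abs_sub _ _).trans ?_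
  have h2 := hpr i j a b
  have h3 := hpr i' j' a' b'
  linarith

/-- the differences of the coordinates are controlled by the form -/
theorem diff_le {Q : Matrix (Fin 3) (Fin 3) ℝ} (hQ : Q.IsSymm) {f : Fin 4 → Fin 3 → ℤ}
    (hf : ∑ l, f l = 0) (hp : ∀ l m, l ≠ m → 0 ≤ sp Q f l m) (s : ℝ) (hs0 : 0 < s)
    (hs : ∀ A : Finset (Fin 4), A.Nonempty → A ≠ Finset.univ → s ≤ qf Q (toR (∑ l ∈ A, f l)))
    (ξ : Fin 4 → ℝ) (i j : Fin 4) :
    (ξ i - ξ j) ^ 2 * s ≤ 9 * qf Q (∑ l, ξ l • toR (f l)) := by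
  classical
  have hform : qf Q (∑ l, ξ l • toR (f l)) = (∑ l, ∑ m, sp Q f l m * ((ξ l - ξ m) * (ξ l - ξ m))) / 2 :=
    selling hQ hf ξ ξ
  have key : ∀ i j : Fin 4, ξ i < ξ j → (ξ i - ξ j) ^ 2 * s ≤ 9 * qf Q (∑ l, ξ l • toR (f l)) := by
    intro i j hij
    obtain ⟨A, hA1, hA2, hA⟩ := gap ξ i j hij
    have h1 := hs A hA1 hA2
    have h2 : ∑ l ∈ A, f l = ∑ l, (if l ∈ A then (1 : ℤ) else 0) • f l := by
      simp [Finset.sum_ite_mem]
    rw [h2, selling_qf hQ hf] at h1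
    set D := (ξ j - ξ i) / 3 with hD
    have hD0 : 0 < D := by
      have := sub_pos.2 hij
      positivity
    have hterm : ∀ l m, D ^ 2 * (sp Q f l m *
        (((if l ∈ A then (1 : ℤ) else 0 : ℤ) : ℝ) - ((if m ∈ A then (1 : ℤ) else 0 : ℤ) : ℝ)) ^ 2) ≤
        sp Q f l m * ((ξ l - ξ m) * (ξ l - ξ m)) := by
      intro l m
      by_cases hlm : l = m
      · subst hlm
        simp
      have h3 := hp l m hlm
      by_cases hl : l ∈ A
      · by_cases hm : m ∈ A
        · rw [if_pos hl, if_pos hm]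
          have := mul_nonneg h3 (mul_self_nonneg (ξ l - ξ m))
          simpa using this
        · rw [if_pos hl, if_neg hm]
          have h4 := hA l hl m hm
          have h5 : D ^ 2 ≤ (ξ l - ξ m) * (ξ l - ξ m) := by nlinarith
          have h6 := mul_le_mul_of_nonneg_left h5 h3
          push_cast
          linarith
      · by_cases hm : m ∈ A
        · rw [if_neg hl, if_pos hm]
          have h4 := hA m hm l hl
          have h5 : D ^ 2 ≤ (ξ l - ξ m) * (ξ l - ξ m) := by nlinarith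
          have h6 := mul_le_mul_of_nonneg_left h5 h3
          push_cast
          linarith
        · rw [if_neg hl, if_neg hm]
          have := mul_nonneg h3 (mul_self_nonneg (ξ l - ξ m))
          simpa using this
    have hsum : D ^ 2 * (∑ l, ∑ m, sp Q f l m *
        (((if l ∈ A then (1 : ℤ) else 0 : ℤ) : ℝ) - ((if m ∈ A then (1 : ℤ) else 0 : ℤ) : ℝ)) ^ 2) ≤
        ∑ l, ∑ m, sp Q f l m * ((ξ l - ξ m) * (ξ l - ξ m)) := by
      rw [Finset.mul_sum]
      refine Finset.sum_le_sum (fun l _ => ?_)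
      rw [Finset.mul_sum]
      exact Finset.sum_le_sum (fun m _ => hterm l m)
    have h7 : D ^ 2 * s ≤ qf Q (∑ l, ξ l • toR (f l)) := by
      rw [hform]
      have h8 := mul_le_mul_of_nonneg_left h1 (sq_nonneg D)
      linarith
    have h9 : (ξ i - ξ j) ^ 2 = 9 * D ^ 2 := by
      rw [hD]
      ring
    rw [h9]
    linarith
  rcases lt_trichotomy (ξ i) (ξ j) with h | h | h
  · exact key i j h
  · rw [h, sub_self]
    have h1 : 0 ≤ qf Q (∑ l, ξ l • toR (f l)) := by
      rw [hform]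
      refine div_nonneg (Finset.sum_nonneg (fun l _ => Finset.sum_nonneg (fun m _ => ?_))) (by norm_num)
      by_cases hlm : l = m
      · subst hlm
        simp
      · exact mul_nonneg (hp l m hlm) (mul_self_nonneg _)
    nlinarith
  · have := key j i h
    have e : (ξ i - ξ j) ^ 2 = (ξ j - ξ i) ^ 2 := by ring
    rw [e]
    exact this

/-- **uniform ellipticity** -/
theorem elliptic {ε C : ℝ} (hε : 0 < ε) {Q : Matrix (Fin 3) (Fin 3) ℝ} (h : InQ ε C Q)
    {f : Fin 4 → Fin 3 → ℤ} (hf : Superbase f) (hp : ∀ l m, l ≠ m → 0 ≤ sp Q f l m) (s : ℝ) (hs0 : 0 < s)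
    (hs : ∀ A : Finset (Fin 4), A.Nonempty → A ≠ Finset.univ → s ≤ qf Q (toR (∑ l ∈ A, f l))) :
    ∀ x : Fin 3 → ℝ, s ^ 3 * ∑ a, x a ^ 2 ≤ 314928 * C ^ 2 * qf Q x := by
  have hQ := h.posDef hε
  have hsy := posDef_symm hQ
  obtain ⟨w, hw⟩ := Pool.Agent.Helper84.FL.dual_basis f hf
  have hw3 : ∀ x : Fin 3 → ℝ, toR (w 3) ⬝ᵥ x = 0 := by
    intro x
    have h4 : w 3 = 0 := by
      have h5 : ∀ l, ∑ k, w 3 k * f l k = 0 := by
        intro l
        rw [hw]
        ring
      have h6 : (fun k => (w 3 k : ℝ)) = 0 := by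
        apply Pool.Agent.Helper84.FL.eq_of_pz f hf
        intro l
        unfold Pool.Agent.Helper84.FL.pz
        have := congrArg (Int.cast : ℤ → ℝ) (h5 l)
        push_cast at this
        rw [this]
        simp
      funext k
      have := congrFun h6 k
      simp only [Pi.zero_apply, Int.cast_eq_zero] at this
      exact this
    have h7 : toR (0 : Fin 3 → ℤ) = 0 := by
      funext k
      exact Int.cast_zero
    rw [h4, h7, zero_dotProduct]
  have hd : ∀ (x : Fin 3 → ℝ) (i : Fin 4), (toR (w i) ⬝ᵥ x) ^ 2 * s ≤ 9 * qf Q x := by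
    intro x i
    have h1 := diff_le hsy hf.sum hp s hs0 hs (fun l => toR (w l) ⬝ᵥ x) i 3
    rw [coord f hf w hw x, hw3, sub_zero] at h1
    exact h1
  -- entries of the dual basis
  set B := 9 * C / s with hB
  have hwB : ∀ i k, (w i k : ℝ) ^ 2 ≤ B := by
    intro i k
    have h1 := hd (Pi.single k 1) i
    rw [dotProduct_single, mul_one] at h1
    have h2 : qf Q (Pi.single k 1) = Q k k := by
      unfold qf
      rw [single_dotProduct, Matrix.mulVec_single_one]
      simp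
    rw [h2] at h1
    have h3 := (abs_le.1 (h.bd k k)).2
    rw [hB, le_div_iff₀ hs0]
    have h4 : toR (w i) k = (w i k : ℝ) := rfl
    rw [h4] at h1
    linarith
  have hfB := sb_entries f w hw B hwB
  have hB0 : 0 ≤ B := (sq_nonneg _).trans (hwB 0 0)
  intro x
  have hx := coord f hf w hw x
  rw [Fin.sum_univ_castSucc] at hx
  have h6 : (Fin.last 3 : Fin 4) = 3 := rfl
  rw [h6, hw3, zero_smul, add_zero] at hx
  have hxa : ∀ a, x a ^ 2 ≤ 3 * (4 * B ^ 2 * ∑ l : Fin 3, (toR (w l.castSucc) ⬝ᵥ x) ^ 2) := by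
    intro a
    have h1 : x a = ∑ l : Fin 3, (toR (w l.castSucc) ⬝ᵥ x) * (f l.castSucc a : ℝ) := by
      conv_lhs => rw [← hx]
      rw [Finset.sum_apply]
      rfl
    rw [h1, Fin.sum_univ_three, Fin.sum_univ_three]
    have e : ∀ l : Fin 3, ((toR (w l.castSucc) ⬝ᵥ x) * (f l.castSucc a : ℝ)) ^ 2 ≤
        4 * B ^ 2 * (toR (w l.castSucc) ⬝ᵥ x) ^ 2 := by
      intro l
      have h2 : (f l.castSucc a : ℝ) ^ 2 ≤ 4 * B ^ 2 := by
        have h3 := hfB l a
        have h4 : |(f l.castSucc a : ℝ)| ^ 2 ≤ (2 * B) ^ 2 := pow_le_pow_left₀ (abs_nonneg _) h3 2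
        rw [sq_abs] at h4
        linarith
      rw [mul_pow]
      nlinarith [sq_nonneg (toR (w l.castSucc) ⬝ᵥ x)]
    have e0 := e 0
    have e1 := e 1
    have e2 := e 2
    set p := (toR (w (0 : Fin 3).castSucc) ⬝ᵥ x) * (f (0 : Fin 3).castSucc a : ℝ)
    set q := (toR (w (1 : Fin 3).castSucc) ⬝ᵥ x) * (f (1 : Fin 3).castSucc a : ℝ)
    set r := (toR (w (2 : Fin 3).castSucc) ⬝ᵥ x) * (f (2 : Fin 3).castSucc a : ℝ)
    nlinarith [sq_nonneg (p - q), sq_nonneg (q - r), sq_nonneg (p - r)]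
  have hsumw : s * ∑ l : Fin 3, (toR (w l.castSucc) ⬝ᵥ x) ^ 2 ≤ 27 * qf Q x := by
    rw [Fin.sum_univ_three]
    have e0 := hd x (0 : Fin 3).castSucc
    have e1 := hd x (1 : Fin 3).castSucc
    have e2 := hd x (2 : Fin 3).castSucc
    linarith
  have hsumx : ∑ a, x a ^ 2 ≤ 36 * B ^ 2 * ∑ l : Fin 3, (toR (w l.castSucc) ⬝ᵥ x) ^ 2 := by
    have h1 : ∑ a, x a ^ 2 ≤ ∑ _a : Fin 3, 3 * (4 * B ^ 2 * ∑ l : Fin 3, (toR (w l.castSucc) ⬝ᵥ x) ^ 2) :=
      Finset.sum_le_sum (fun a _ => hxa a)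
    rw [Finset.sum_const, Finset.card_univ, Fintype.card_fin, nsmul_eq_mul] at h1
    push_cast at h1
    linarith
  have hBs : s ^ 2 * B ^ 2 = 81 * C ^ 2 := by
    rw [hB]
    field_simp
    ring
  calc s ^ 3 * ∑ a, x a ^ 2 ≤ s ^ 3 * (36 * B ^ 2 * ∑ l : Fin 3, (toR (w l.castSucc) ⬝ᵥ x) ^ 2) :=
        mul_le_mul_of_nonneg_left hsumx (by positivity)
    _ = 36 * (s ^ 2 * B ^ 2) * (s * ∑ l : Fin 3, (toR (w l.castSucc) ⬝ᵥ x) ^ 2) := by ring
    _ = 36 * (81 * C ^ 2) * (s * ∑ l : Fin 3, (toR (w l.castSucc) ⬝ᵥ x) ^ 2) := by rw [hBs]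
    _ ≤ 36 * (81 * C ^ 2) * (27 * qf Q x) := by
        refine mul_le_mul_of_nonneg_left hsumw (by positivity)
    _ ≤ 314928 * C ^ 2 * qf Q x := by
        have h1 : 0 ≤ qf Q x := by
          have := h.low x
          have h2 : 0 ≤ ε * ∑ a, x a ^ 2 := mul_nonneg hε.le (Finset.sum_nonneg (fun a _ => sq_nonneg _))
          linarith
        have h2 : 0 ≤ C ^ 2 * qf Q x := mul_nonneg (sq_nonneg _) h1
        nlinarith

end Pool.Agent.Helper1.FX
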