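import Pool.Agent.Helper1.FX.Rule

/-! MP_be0fb5, full answer: the equilibrium in which every superbase used is an exact minimiser. -/

set_option autoImplicit false

namespace Pool.Agent.Helper1.FX

open Matrix Pool.Agent.Helper12.LW
open Pool.Agent.Helper84.FL (Superbase pz pr)
open Filter Topology

theorem sum_eq_of_supp {α E : Type*} [DecidableEq α] [AddCommMonoid E] (A B : Finset α) (g : α → E)
    (hA : ∀ a, a ∉ A → g a = 0) (hB : ∀ a, a ∉ B → g a = 0) : ∑ a ∈ A, g a = ∑ a ∈ B, g a := by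
  have h1 : ∑ a ∈ A, g a = ∑ a ∈ A ∪ B, g a :=
    Finset.sum_subset Finset.subset_union_left (fun a _ ha => hA a ha)
  have h2 : ∑ a ∈ B, g a = ∑ a ∈ A ∪ B, g a :=
    Finset.sum_subset Finset.subset_union_right (fun a _ ha => hB a ha)
  rw [h1, h2]

/-- a convergent subsequence of weights -/
theorem subseq (F : Finset (Fin 4 → Fin 3 → ℤ)) (y : ℕ → (Fin 4 → Fin 3 → ℤ) → ℝ)
    (h0 : ∀ n a, 0 ≤ y n a) (h1 : ∀ n, ∑ a ∈ F, y n a = 1) (h2 : ∀ n a, a ∉ F → y n a = 0) :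
    ∃ (y' : (Fin 4 → Fin 3 → ℤ) → ℝ) (φ : ℕ → ℕ), StrictMono φ ∧
      (∀ a, Tendsto (fun n => y (φ n) a) atTop (𝓝 (y' a))) ∧ (∀ a, 0 ≤ y' a) ∧ ∑ a ∈ F, y' a = 1 ∧
      ∀ a, a ∉ F → y' a = 0 := by
  have hle : ∀ n a, y n a ≤ 1 := by
    intro n a
    by_cases ha : a ∈ F
    · rw [← h1 n]
      exact Finset.single_le_sum (f := fun a => y n a) (fun a _ => h0 n a) ha
    · rw [h2 n a ha]
      exact zero_le_one
  have hcomp : IsCompact (Set.pi Set.univ (fun _ : Fin 4 → Fin 3 → ℤ => Set.Icc (0 : ℝ) 1)) :=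
    isCompact_univ_pi (fun _ => isCompact_Icc)
  obtain ⟨y', -, φ, hφ, hlim⟩ := hcomp.tendsto_subseq (x := y) (fun n a _ => ⟨h0 n a, hle n a⟩)
  have hlim' : ∀ a, Tendsto (fun n => y (φ n) a) atTop (𝓝 (y' a)) := fun a =>
    (tendsto_pi_nhds.1 hlim) a
  refine ⟨y', φ, hφ, hlim', ?_, ?_, ?_⟩
  · intro a
    exact ge_of_tendsto' (hlim' a) (fun n => h0 _ _)
  · have h3 : Tendsto (fun n => ∑ a ∈ F, y (φ n) a) atTop (𝓝 (∑ a ∈ F, y' a)) :=
      tendsto_finsetSum _ (fun a _ => hlim' a)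
    simp only [h1] at h3
    exact (tendsto_nhds_unique h3 tendsto_const_nhds)
  · intro a ha
    have h3 := hlim' a
    simp only [h2 _ a ha] at h3
    exact (tendsto_nhds_unique h3 tendsto_const_nhds)

/-- the class of forms is closed -/
theorem InQ_closed {ε C : ℝ} (Qn : ℕ → Matrix (Fin 3) (Fin 3) ℝ) (Q : Matrix (Fin 3) (Fin 3) ℝ)
    (h : ∀ n, InQ ε C (Qn n)) (hlim : Tendsto Qn atTop (𝓝 Q)) : InQ ε C Q := by
  have hent : ∀ a b, Tendsto (fun n => Qn n a b) atTop (𝓝 (Q a b)) := by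
    intro a b
    exact ((continuous_apply_apply a b).tendsto Q).comp hlim
  refine ⟨?_, ?_, ?_⟩
  · intro a b
    refine tendsto_nhds_unique (hent a b) ?_
    simp only [(h _).symm a b]
    exact hent b a
  · intro a b
    exact le_of_tendsto' (hent a b).abs (fun n => (h n).bd a b)
  · intro x
    have h1 : Tendsto (fun n => qf (Qn n) x) atTop (𝓝 (qf Q x)) := by
      simp only [qf_eq]
      exact tendsto_finsetSum _ (fun a _ => tendsto_finsetSum _ (fun b _ =>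
        ((hent a b).mul_const _).const_mul _))
    exact ge_of_tendsto' h1 (fun n => (h n).low x)

/-- **equilibrium** for a given choice of systems: all the superbases used are exact minimisers. -/
theorem equil_gen (V : (Fin 4 → Fin 3 → ℤ) → Fin 4 → Fin 3 → ℝ) (C0 : ℝ) (hC0 : 0 ≤ C0)
    (hV : ∀ f, Superbase f → ∀ a b, |gram (V f) a b| ≤ C0) (ε : ℝ) (hε : 0 < ε) :
    ∃ (F : Finset (Fin 4 → Fin 3 → ℤ)) (y : (Fin 4 → Fin 3 → ℤ) → ℝ) (Q : Matrix (Fin 3) (Fin 3) ℝ),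
      Q = ε • 1 + ∑ f ∈ F, y f • gram (V f) ∧ InQ ε (ε + C0) Q ∧ ∑ f ∈ F, y f = 1 ∧
      ∀ f ∈ F, 0 < y f ∧ Superbase f ∧ rep f = f ∧ ∀ g, Superbase g → PP Q f ≤ PP Q g := by
  classical
  have hC : 0 ≤ ε + C0 := by linarith
  set R := 24 * (ε + C0) / ε with hRdef
  set δ : ℕ → ℝ := fun n => 1 / ((n : ℝ) + 1) with hδdef
  have hδ0 : ∀ n, 0 < δ n := fun n => by
    simp only [hδdef]
    positivity
  have hδ1 : ∀ n, δ n ≤ 1 := fun n => by
    simp only [hδdef]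
    rw [div_le_one (by positivity)]
    have := Nat.cast_nonneg (α := ℝ) n
    linarith
  have hex := fun n => mix_family V C0 hC0 hV (wst (δ n)) (1 + δ n) (by linarith [hδ0 n])
    (wst_rule (δ n) (hδ0 n)) ε hε
  choose Fn y Q hFs hy0 hyF hy1 hQe hQ hwF hS hw using hex
  have hsupp : ∀ n f, y n f ≠ 0 → 0 < wst (δ n) f (Q n) := by
    intro n f hne
    rw [hw n f]
    exact mul_pos (lt_of_le_of_ne (hy0 n f) (Ne.symm hne)) (hS n)
  have hmem : ∀ n f, f ∉ FB R → y n f = 0 := by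
    intro n f hf
    by_contra hne
    apply hf
    obtain ⟨h1, h2⟩ := (wst_rule (δ n) (hδ0 n)).near f (Q n) ε (ε + C0) hε (hQ n) (hsupp n f hne)
    refine mem_FB.2 ⟨h1, ?_⟩
    have h3 := PP_low (hQ n) f
    have h4 : Pst (Q n) ≤ 6 * (ε + C0) := (Pst_le ((hQ n).posDef hε) f0_sb).trans (PP_f0 (hQ n))
    have h5 := Pst_pos hε (hQ n)
    rw [hRdef, le_div_iff₀ hε]
    have := hδ1 n
    nlinarith
  have hsum : ∀ {E : Type} [AddCommMonoid E] (n : ℕ) (g : (Fin 4 → Fin 3 → ℤ) → E),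
      (∀ f, y n f = 0 → g f = 0) → ∑ f ∈ Fn n, g f = ∑ f ∈ FB R, g f := by
    intro E _ n g hg
    exact sum_eq_of_supp _ _ g (fun f hf => hg f (hyF n f hf)) (fun f hf => hg f (hmem n f hf))
  have hy1' : ∀ n, ∑ f ∈ FB R, y n f = 1 := fun n => by
    rw [← hsum n (y n) (fun f hf => hf)]
    exact hy1 n
  have hQe' : ∀ n, Q n = ε • 1 + ∑ f ∈ FB R, y n f • gram (V f) := fun n => by
    rw [← hsum n (fun f => y n f • gram (V f)) (fun f hf => by
      show y n f • gram (V f) = 0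
      rw [hf, zero_smul])]
    exact hQe n
  obtain ⟨y', φ, hφ, hlim, hy'0, hy'1, hy'F⟩ := subseq (FB R) y hy0 hy1' hmem
  set Q' : Matrix (Fin 3) (Fin 3) ℝ := ε • 1 + ∑ f ∈ FB R, y' f • gram (V f) with hQ'
  have hQlim : Tendsto (fun n => Q (φ n)) atTop (𝓝 Q') := by
    simp only [hQe']
    exact tendsto_const_nhds.add (tendsto_finsetSum _ (fun f _ => (hlim f).smul_const _))
  have hInQ : InQ ε (ε + C0) Q' := InQ_closed _ _ (fun n => hQ (φ n)) hQlim
  have hδlim : Tendsto (fun n => δ (φ n)) atTop (𝓝 0) :=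
    tendsto_one_div_add_atTop_nhds_zero_nat.comp hφ.tendsto_atTop
  have hPPlim : ∀ f, Tendsto (fun n => PP (Q (φ n)) f) atTop (𝓝 (PP Q' f)) := fun f =>
    ((PP_cont f).tendsto Q').comp hQlim
  -- the support
  refine ⟨(FB R).filter (fun f => 0 < y' f), y', Q', ?_, hInQ, ?_, ?_⟩
  · rw [hQ']
    congr 1
    refine sum_eq_of_supp _ _ _ ?_ ?_
    · intro f hf
      rw [hy'F f hf, zero_smul]
    · intro f hf
      have h1 : y' f = 0 := by
        by_contra hne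
        apply hf
        have hfR : f ∈ FB R := by
          by_contra h
          exact hne (hy'F f h)
        exact Finset.mem_filter.2 ⟨hfR, lt_of_le_of_ne (hy'0 f) (Ne.symm hne)⟩
      rw [h1, zero_smul]
  · rw [← hy'1]
    refine sum_eq_of_supp _ _ _ ?_ hy'F
    intro f hf
    by_contra hne
    apply hf
    have hfR : f ∈ FB R := by
      by_contra h
      exact hne (hy'F f h)
    exact Finset.mem_filter.2 ⟨hfR, lt_of_le_of_ne (hy'0 f) (Ne.symm hne)⟩
  · intro f hf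
    rw [Finset.mem_filter] at hf
    have hev : ∀ᶠ n in atTop, 0 < y (φ n) f := (hlim f).eventually (lt_mem_nhds hf.2)
    have hrep : rep f = f := by
      obtain ⟨n, hn⟩ := hev.exists
      have h1 := hsupp (φ n) f hn.ne'
      unfold wst at h1
      by_contra hcon
      rw [if_neg (fun h => hcon h.1)] at h1
      exact lt_irrefl _ h1
    refine ⟨hf.2, (mem_FB.1 hf.1).1, hrep, ?_⟩
    intro g hg
    have hle : ∀ᶠ n in atTop, PP (Q (φ n)) f ≤ (1 + δ (φ n)) * PP (Q (φ n)) g := by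
      filter_upwards [hev] with n hn
      have h1 := ((wst_rule (δ (φ n)) (hδ0 _)).near f (Q (φ n)) ε (ε + C0) hε (hQ _)
        (hsupp (φ n) f hn.ne')).2
      refine h1.trans ?_
      exact mul_le_mul_of_nonneg_left (Pst_le ((hQ _).posDef hε) hg) (by linarith [hδ0 (φ n)])
    have hlimr : Tendsto (fun n => (1 + δ (φ n)) * PP (Q (φ n)) g) atTop (𝓝 ((1 + 0) * PP Q' g)) :=
      (tendsto_const_nhds.add hδlim).mul (hPPlim g)
    rw [add_zero, one_mul] at hlimr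
    exact le_of_tendsto_of_tendsto (hPPlim f) hlimr hle

/-- **equilibrium** of a lattice-free body -/
theorem equilibrium (K : Set (Fin 3 → ℝ)) (hK : LFree K) (ε : ℝ) (hε : 0 < ε) :
    ∃ (F : Finset (Fin 4 → Fin 3 → ℤ)) (y : (Fin 4 → Fin 3 → ℤ) → ℝ)
      (z : (Fin 4 → Fin 3 → ℤ) → Fin 3 → ℤ) (σ : (Fin 4 → Fin 3 → ℤ) → Equiv.Perm (Fin 3))
      (V : (Fin 4 → Fin 3 → ℤ) → Fin 4 → Fin 3 → ℝ) (Q : Matrix (Fin 3) (Fin 3) ℝ),
      Q.PosDef ∧ Q = ε • 1 + ∑ f ∈ F, y f • gram (V f) ∧ ∑ f ∈ F, y f = 1 ∧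
      ∀ f ∈ F, 0 < y f ∧ Superbase f ∧ rep f = f ∧ (∀ g, Superbase g → PP Q f ≤ PP Q g) ∧
        Sep4 K (chainP f (z f) (σ f)) (V f) := by
  classical
  obtain ⟨C0, hC0, hb⟩ := gram_bound K hK.interior_nonempty
  have hdet : ∀ f : Fin 4 → Fin 3 → ℤ, Superbase f → IsUnit (Matrix.of ![f 0, f 1, f 2]).det := by
    intro f hf
    obtain ⟨w, hw⟩ := Pool.Agent.Helper84.FL.dual_basis f hf
    set F : Matrix (Fin 3) (Fin 3) ℤ := Matrix.of ![f 0, f 1, f 2] with hF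
    set M : Matrix (Fin 3) (Fin 3) ℤ := Matrix.of fun k i => w i.castSucc k with hM
    have h1 : F * M = 1 := by
      ext l i
      rw [Matrix.mul_apply, Matrix.one_apply]
      have h2 := hw i.castSucc l.castSucc
      have h3 : l.castSucc ≠ (3 : Fin 4) := by
        intro h
        have := congrArg Fin.val h
        simp at this
        omega
      rw [if_neg h3, sub_zero] at h2
      simp only [Fin.castSucc_inj] at h2
      rw [← h2]
      refine Finset.sum_congr rfl (fun k _ => ?_)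
      rw [mul_comm]
      congr 1
      fin_cases l <;> rfl
    have h2 : F.det * M.det = 1 := by rw [← Matrix.det_mul, h1, Matrix.det_one]
    exact IsUnit.of_mul_eq_one _ h2
  have hex : ∀ f : Fin 4 → Fin 3 → ℤ, ∃ (z : Fin 3 → ℤ) (σ : Equiv.Perm (Fin 3)) (v : Fin 4 → Fin 3 → ℝ),
      Superbase f → Sep4 K (chainP f z σ) v := by
    intro f
    by_cases hf : Superbase f
    · obtain ⟨z, σ, v, h⟩ := Pool.Agent.Helper1.UB.LW.sperner K hK f hf.sum (hdet f hf)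
      exact ⟨z, σ, v, fun _ => h⟩
    · exact ⟨0, 1, 0, fun h => absurd h hf⟩
  choose z σ V hV using hex
  obtain ⟨F, y, Q, hQe, hQ, hy1, hF⟩ := equil_gen V C0 hC0 (fun f hf => hb _ _ (hV f hf)) ε hε
  refine ⟨F, y, z, σ, V, Q, hQ.posDef hε, hQe, hy1, fun f hf => ?_⟩
  obtain ⟨h1, h2, h3, h4⟩ := hF f hf
  exact ⟨h1, h2, h3, h4, hV f h2⟩

end Pool.Agent.Helper1.FX
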