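import Pool.Agent.Helper1.FX.Equil
import Pool.Agent.Helper24.UB.Defs

/-! MP_be0fb5, bound (6 + √66)/4: existence of the equilibrium in the form of helper24. -/

set_option autoImplicit false

namespace Pool.Agent.Helper1.FX

open Matrix
open Pool.Agent.Helper12.LW (LFree chainP Sep4)
open Pool.Agent.Helper84.FL (Superbase)
open Pool.Agent.Helper24.UB (Equi)
open Pool.Agent.Helper22.Sym (Superb)

theorem toR_same : Pool.Agent.Helper22.Sym.toR = Pool.Agent.Helper12.LW.toR := rfl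

/-- the potentials of a superbase -/
theorem exists_pot (f : Fin 4 → Fin 3 → ℤ) (hf : Superbase f) : ∃ g : Fin 4 → Fin 3 → ℤ, Superb f g := by
  obtain ⟨w, hw⟩ := Pool.Agent.Helper84.FL.dual_basis f hf
  refine ⟨w, hf.sum, fun i j l => ?_⟩
  have h1 : (w i - w j) ⬝ᵥ f l = ∑ k, w i k * f l k - ∑ k, w j k * f l k := by
    simp only [dotProduct, Pi.sub_apply, sub_mul, Finset.sum_sub_distrib]
  rw [h1, hw, hw]
  simp only [eq_comm (a := i), eq_comm (a := j)]
  ring

theorem exists_equi (K : Set (Fin 3 → ℝ)) (hK : LFree K) (ε : ℝ) (hε : 0 < ε) :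
    ∃ (ι : Type) (_ : Fintype ι) (_ : Nonempty ι), Nonempty (Equi K ε ι) := by
  classical
  obtain ⟨F, y, z, σ, V, Q, hPD, hQe, hy1, hF⟩ := equilibrium K hK ε hε
  have hex : ∀ f : {f // f ∈ F}, ∃ g : Fin 4 → Fin 3 → ℤ, Superb f.1 g := fun f =>
    exists_pot f.1 (hF f.1 f.2).2.1
  choose g hg using hex
  have hne : Nonempty {f // f ∈ F} := by
    by_contra hcon
    rw [not_nonempty_iff] at hcon
    have h1 : F = ∅ := by
      rw [Finset.eq_empty_iff_forall_notMem]
      intro f hf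
      exact hcon.false ⟨f, hf⟩
    rw [h1, Finset.sum_empty] at hy1
    exact zero_ne_one hy1
  have hbil : ∀ (v : Fin 4 → Fin 3 → ℝ) (x w : Fin 3 → ℝ),
      x ⬝ᵥ gram v *ᵥ w = ∑ k, (v k ⬝ᵥ x) * (v k ⬝ᵥ w) := by
    intro v x w
    simp only [dotProduct, mulVec, gram_apply, Fin.sum_univ_three, Fin.sum_univ_four]
    ring
  have hsum : ∀ (x w : Fin 3 → ℝ) (s : Finset (Fin 4 → Fin 3 → ℤ))
      (A : (Fin 4 → Fin 3 → ℤ) → Matrix (Fin 3) (Fin 3) ℝ),
      x ⬝ᵥ (∑ f ∈ s, A f) *ᵥ w = ∑ f ∈ s, x ⬝ᵥ A f *ᵥ w := by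
    intro x w s A
    induction s using Finset.induction_on with
    | empty => simp
    | insert f s hf ih => rw [Finset.sum_insert hf, Finset.sum_insert hf, add_mulVec, dotProduct_add, ih]
  refine ⟨{f // f ∈ F}, inferInstance, hne, ⟨{
    y := fun f => y f.1
    f := fun f => f.1
    g := g
    z := fun f => z f.1
    σ := fun f => σ f.1
    v := fun f => V f.1
    Q := Q
    ypos := fun f => (hF f.1 f.2).1
    ysum := ?_
    hsb := hg
    hv0 := fun f => (hF f.1 f.2).2.2.2.2.sum_zero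
    hv1 := fun f => (hF f.1 f.2).2.2.2.2.norm_one
    hsep := fun f => (hF f.1 f.2).2.2.2.2.sep
    hpd := hPD
    hQ := ?_
    hob := ?_ }⟩⟩
  · rw [← hy1]
    exact Finset.sum_coe_sort F y
  · intro x w
    conv_lhs => rw [hQe]
    rw [add_mulVec, dotProduct_add, smul_mulVec, one_mulVec, dotProduct_smul, smul_eq_mul, hsum]
    congr 1
    rw [← Finset.sum_coe_sort F]
    refine Finset.sum_congr rfl (fun f _ => ?_)
    rw [smul_mulVec, dotProduct_smul, smul_eq_mul, hbil]
  · intro f a b hab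
    obtain ⟨-, h2, -, h4, -⟩ := hF f.1 f.2
    have h5 := Pool.Agent.Helper73.FX.sp_nonneg_of_min (posDef_symm hPD) h2 (fun g hg => h4 g hg) hab
    unfold Pool.Agent.Helper73.FX.sp at h5
    unfold Pool.Agent.Helper22.Sym.bil
    rw [toR_same]
    linarith

end Pool.Agent.Helper1.FX
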