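import Pool.Agent.Helper1.FX.Mix
import Pool.Agent.Helper22.Sym.Selling

/-! MP_be0fb5, full answer: the near minimal superbases of a form, and the mixture over them. -/

set_option autoImplicit false

namespace Pool.Agent.Helper1.FX

open Matrix Pool.Agent.Helper12.LW
open Pool.Agent.Helper84.FL (Superbase pz pr)

/-- half the trace of the form on the superbase -/
noncomputable def PP (Q : Matrix (Fin 3) (Fin 3) ℝ) (f : Fin 4 → Fin 3 → ℤ) : ℝ := (∑ l, qf Q (toR (f l))) / 2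

/-- the minimum of `PP` over all superbases -/
noncomputable def Pst (Q : Matrix (Fin 3) (Fin 3) ℝ) : ℝ := ⨅ f : {f : Fin 4 → Fin 3 → ℤ // Superbase f}, PP Q f

/-- squared length of a superbase -/
def nf (f : Fin 4 → Fin 3 → ℤ) : ℤ := ∑ l, ∑ a, (f l a) ^ 2

theorem toR_apply (z : Fin 3 → ℤ) (a : Fin 3) : toR z a = (z a : ℝ) := rfl

theorem nf_cast (f : Fin 4 → Fin 3 → ℤ) : (nf f : ℝ) = ∑ l, ∑ a, (toR (f l) a) ^ 2 := by
  unfold nf
  push_cast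
  rfl

theorem PP_low {ε C : ℝ} {Q : Matrix (Fin 3) (Fin 3) ℝ} (h : InQ ε C Q) (f : Fin 4 → Fin 3 → ℤ) :
    ε * nf f ≤ 2 * PP Q f := by
  unfold PP
  rw [nf_cast, Finset.mul_sum]
  have h1 : ∑ l, ε * ∑ a, (toR (f l) a) ^ 2 ≤ ∑ l, qf Q (toR (f l)) :=
    Finset.sum_le_sum (fun l _ => h.low _)
  linarith

/-- the standard superbase -/
def f0 : Fin 4 → Fin 3 → ℤ := ![![1, 0, 0], ![0, 1, 0], ![0, 0, 1], ![-1, -1, -1]]

theorem f0_sb : Superbase f0 := by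
  refine Pool.Agent.Helper1.UB.LW.superbase_of_det f0 ?_ ?_
  · decide
  · rw [Matrix.det_fin_three]
    simp [f0]

theorem f0_nf : nf f0 = 6 := by
  decide

theorem PP_f0 {ε C : ℝ} {Q : Matrix (Fin 3) (Fin 3) ℝ} (h : InQ ε C Q) : PP Q f0 ≤ 6 * C := by
  have e : ∀ x : Fin 3 → ℝ, qf Q x = x 0 * (Q 0 0 * x 0 + Q 0 1 * x 1 + Q 0 2 * x 2) +
      x 1 * (Q 1 0 * x 0 + Q 1 1 * x 1 + Q 1 2 * x 2) + x 2 * (Q 2 0 * x 0 + Q 2 1 * x 1 + Q 2 2 * x 2) := by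
    intro x
    rw [qf_eq]
    simp only [Fin.sum_univ_three]
    ring
  have hb := fun a b => (abs_le.1 (h.bd a b)).2
  have h00 := hb 0 0
  have h01 := hb 0 1
  have h02 := hb 0 2
  have h10 := hb 1 0
  have h11 := hb 1 1
  have h12 := hb 1 2
  have h20 := hb 2 0
  have h21 := hb 2 1
  have h22 := hb 2 2
  unfold PP
  rw [Fin.sum_univ_four]
  simp only [e, toR_apply, f0]
  simp
  linarith

theorem PP_nonneg {Q : Matrix (Fin 3) (Fin 3) ℝ} (hQ : Q.PosDef) (f : Fin 4 → Fin 3 → ℤ) : 0 ≤ PP Q f := by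
  unfold PP
  refine div_nonneg (Finset.sum_nonneg (fun l _ => ?_)) (by norm_num)
  have := hQ.posSemidef.dotProduct_mulVec_nonneg (toR (f l))
  simpa [qf] using this

theorem sb_ne_zero {f : Fin 4 → Fin 3 → ℤ} (hf : Superbase f) : ∃ l, f l ≠ 0 := by
  by_contra hcon
  push Not at hcon
  obtain ⟨a, ha⟩ := hf.span (Pi.single 0 1)
  have h1 : (Pi.single 0 1 : Fin 3 → ℤ) = 0 := by
    rw [ha]
    simp [hcon]
  have h2 := congrFun h1 0
  simp at h2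

theorem PP_pos {Q : Matrix (Fin 3) (Fin 3) ℝ} (hQ : Q.PosDef) {f : Fin 4 → Fin 3 → ℤ}
    (hf : Superbase f) : 0 < PP Q f := by
  obtain ⟨l, hl⟩ := sb_ne_zero hf
  unfold PP
  refine div_pos ?_ (by norm_num)
  have h0 : ∀ l, 0 ≤ qf Q (toR (f l)) := by
    intro l
    have := hQ.posSemidef.dotProduct_mulVec_nonneg (toR (f l))
    simpa [qf] using this
  refine Finset.sum_pos' (fun l _ => h0 l) ⟨l, Finset.mem_univ _, ?_⟩
  have h1 : toR (f l) ≠ 0 := by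
    intro h
    apply hl
    funext a
    have h2 := congrFun h a
    simp only [toR_apply, Pi.zero_apply, Int.cast_eq_zero] at h2
    exact h2
  have := hQ.dotProduct_mulVec_pos h1
  simpa [qf] using this

theorem Pst_bdd {Q : Matrix (Fin 3) (Fin 3) ℝ} (hQ : Q.PosDef) :
    BddBelow (Set.range fun f : {f : Fin 4 → Fin 3 → ℤ // Superbase f} => PP Q f) :=
  ⟨0, by rintro _ ⟨f, rfl⟩; exact PP_nonneg hQ _⟩

theorem Pst_le {Q : Matrix (Fin 3) (Fin 3) ℝ} (hQ : Q.PosDef) {f : Fin 4 → Fin 3 → ℤ}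
    (hf : Superbase f) : Pst Q ≤ PP Q f :=
  ciInf_le (Pst_bdd hQ) (⟨f, hf⟩ : {f : Fin 4 → Fin 3 → ℤ // Superbase f})

/-- all superbases of bounded length -/
theorem FB_finite (R : ℝ) : {f : Fin 4 → Fin 3 → ℤ | Superbase f ∧ (nf f : ℝ) ≤ R}.Finite := by
  obtain ⟨N, hN⟩ := exists_nat_ge R
  refine (Set.finite_Icc (fun _ _ => -(N : ℤ) : Fin 4 → Fin 3 → ℤ) (fun _ _ => (N : ℤ))).subset ?_
  rintro f ⟨-, hf⟩
  have h1 : nf f ≤ N := by
    have : (nf f : ℝ) ≤ (N : ℤ) := by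
      push_cast
      exact hf.trans hN
    exact_mod_cast this
  have h2 : ∀ l a, (f l a) ^ 2 ≤ N := by
    intro l a
    refine le_trans ?_ h1
    unfold nf
    refine le_trans ?_ (Finset.single_le_sum (f := fun l => ∑ a, (f l a) ^ 2)
      (fun l _ => Finset.sum_nonneg (fun a _ => sq_nonneg _)) (Finset.mem_univ l))
    exact Finset.single_le_sum (f := fun a => (f l a) ^ 2) (fun a _ => sq_nonneg _) (Finset.mem_univ a)
  have h3 : ∀ l a, |f l a| ≤ N := by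
    intro l a
    have h4 := h2 l a
    rw [abs_le]
    constructor <;> nlinarith
  exact ⟨fun l a => (abs_le.1 (h3 l a)).1, fun l a => (abs_le.1 (h3 l a)).2⟩

/-- the finite set of the superbases of bounded length -/
noncomputable def FB (R : ℝ) : Finset (Fin 4 → Fin 3 → ℤ) := (FB_finite R).toFinset

theorem mem_FB {R : ℝ} {f : Fin 4 → Fin 3 → ℤ} : f ∈ FB R ↔ Superbase f ∧ (nf f : ℝ) ≤ R := by
  unfold FB
  rw [Set.Finite.mem_toFinset]
  rfl

theorem FB_nonempty {R : ℝ} (hR : 6 ≤ R) : (FB R).Nonempty := by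
  refine ⟨f0, mem_FB.2 ⟨f0_sb, ?_⟩⟩
  rw [f0_nf]
  push_cast
  exact hR

/-- the minimum is attained in a fixed finite set -/
theorem Pst_eq {ε C R : ℝ} (hε : 0 < ε) (hR : 6 ≤ R) (hRC : 12 * C ≤ ε * R)
    {Q : Matrix (Fin 3) (Fin 3) ℝ} (h : InQ ε C Q) :
    Pst Q = (FB R).inf' (FB_nonempty hR) (fun f => PP Q f) := by
  have hQ := h.posDef hε
  apply le_antisymm
  · rw [Finset.le_inf'_iff]
    intro f hf
    exact Pst_le hQ (mem_FB.1 hf).1
  · haveI : Nonempty {f : Fin 4 → Fin 3 → ℤ // Superbase f} := ⟨⟨f0, f0_sb⟩⟩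
    refine le_ciInf (fun f => ?_)
    by_cases hf : (nf f.1 : ℝ) ≤ R
    · exact Finset.inf'_le (fun f => PP Q f) (mem_FB.2 ⟨f.2, hf⟩)
    · have h1 : (FB R).inf' (FB_nonempty hR) (fun f => PP Q f) ≤ PP Q f0 :=
        Finset.inf'_le (fun f => PP Q f) (mem_FB.2 ⟨f0_sb, by rw [f0_nf]; push_cast; exact hR⟩)
      refine h1.trans ((PP_f0 h).trans ?_)
      have h2 := PP_low h f.1
      push Not at hf
      nlinarith

theorem Pst_exists {Q : Matrix (Fin 3) (Fin 3) ℝ} {ε C : ℝ} (hε : 0 < ε) (h : InQ ε C Q) :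
    ∃ f, Superbase f ∧ PP Q f = Pst Q := by
  have hC : 0 ≤ C := (abs_nonneg _).trans (h.bd 0 0)
  set R := max 6 (12 * C / ε) with hRdef
  have hR : 6 ≤ R := le_max_left _ _
  have hRC : 12 * C ≤ ε * R := by
    have h1 : 12 * C / ε ≤ R := le_max_right _ _
    rw [div_le_iff₀ hε] at h1
    linarith
  rw [Pst_eq hε hR hRC h]
  obtain ⟨f, hf, he⟩ := Finset.exists_mem_eq_inf' (FB_nonempty hR) (fun f => PP Q f)
  exact ⟨f, (mem_FB.1 hf).1, he.symm⟩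

theorem Pst_pos {Q : Matrix (Fin 3) (Fin 3) ℝ} {ε C : ℝ} (hε : 0 < ε) (h : InQ ε C Q) : 0 < Pst Q := by
  obtain ⟨f, hf, he⟩ := Pst_exists hε h
  rw [← he]
  exact PP_pos (h.posDef hε) hf

theorem PP_cont (f : Fin 4 → Fin 3 → ℤ) : Continuous fun Q : Matrix (Fin 3) (Fin 3) ℝ => PP Q f := by
  unfold PP
  simp only [qf_eq]
  refine Continuous.div_const (continuous_finsetSum _ (fun l _ => continuous_finsetSum _ (fun a _ =>
    continuous_finsetSum _ (fun b _ => ?_)))) _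
  exact continuous_const.mul ((continuous_apply_apply a b).mul continuous_const)

theorem Pst_cont {ε C : ℝ} (hε : 0 < ε) : ContinuousOn Pst {Q | InQ ε C Q} := by
  set R := max 6 (12 * C / ε) with hRdef
  have hR : 6 ≤ R := le_max_left _ _
  have hRC : 12 * C ≤ ε * R := by
    have h1 : 12 * C / ε ≤ R := le_max_right _ _
    rw [div_le_iff₀ hε] at h1
    linarith
  have h1 : Continuous fun Q : Matrix (Fin 3) (Fin 3) ℝ =>
      (FB R).inf' (FB_nonempty hR) (fun f => PP Q f) :=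
    Continuous.finset_inf'_apply (FB_nonempty hR) (fun f _ => PP_cont f)
  exact h1.continuousOn.congr (fun Q hQ => Pst_eq hε hR hRC hQ)

/-- conditions on the weights -/
structure Rule (Λ : ℝ) (w : (Fin 4 → Fin 3 → ℤ) → Matrix (Fin 3) (Fin 3) ℝ → ℝ) : Prop where
  nonneg : ∀ f Q, 0 ≤ w f Q
  cont : ∀ f (ε C : ℝ), 0 < ε → ContinuousOn (w f) {Q | InQ ε C Q}
  near : ∀ f Q (ε C : ℝ), 0 < ε → InQ ε C Q → 0 < w f Q → Superbase f ∧ PP Q f ≤ Λ * Pst Q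
  pos : ∀ Q (ε C : ℝ), 0 < ε → InQ ε C Q → ∃ f, 0 < w f Q

/-- **the mixture** over the near minimal superbases -/
theorem mix_family (V : (Fin 4 → Fin 3 → ℤ) → Fin 4 → Fin 3 → ℝ) (C0 : ℝ) (hC0 : 0 ≤ C0)
    (hV : ∀ f, Superbase f → ∀ a b, |gram (V f) a b| ≤ C0)
    (w : (Fin 4 → Fin 3 → ℤ) → Matrix (Fin 3) (Fin 3) ℝ → ℝ) (Λ : ℝ) (hΛ : 1 ≤ Λ) (hw : Rule Λ w)
    (ε : ℝ) (hε : 0 < ε) :
    ∃ (F : Finset (Fin 4 → Fin 3 → ℤ)) (y : (Fin 4 → Fin 3 → ℤ) → ℝ) (Q : Matrix (Fin 3) (Fin 3) ℝ),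
      (∀ f ∈ F, Superbase f) ∧ (∀ f, 0 ≤ y f) ∧ (∀ f, f ∉ F → y f = 0) ∧ ∑ f ∈ F, y f = 1 ∧
      Q = ε • 1 + ∑ f ∈ F, y f • gram (V f) ∧ InQ ε (ε + C0) Q ∧ (∀ f, 0 < w f Q → f ∈ F) ∧
      0 < ∑ g ∈ F, w g Q ∧ ∀ f, w f Q = y f * ∑ g ∈ F, w g Q := by
  classical
  have hC : 0 ≤ ε + C0 := by linarith
  set R := max 6 (12 * Λ * (ε + C0) / ε) with hRdef
  have hR : 6 ≤ R := le_max_left _ _
  have hRC : 12 * Λ * (ε + C0) ≤ ε * R := by
    have h1 : 12 * Λ * (ε + C0) / ε ≤ R := le_max_right _ _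
    rw [div_le_iff₀ hε] at h1
    linarith
  have hmem : ∀ f Q, InQ ε (ε + C0) Q → 0 < w f Q → f ∈ FB R := by
    intro f Q hQ hwf
    obtain ⟨h1, h2⟩ := hw.near f Q ε (ε + C0) hε hQ hwf
    refine mem_FB.2 ⟨h1, ?_⟩
    have h3 := PP_low hQ f
    have h4 : Pst Q ≤ 6 * (ε + C0) := (Pst_le (hQ.posDef hε) f0_sb).trans (PP_f0 hQ)
    have h5 : ε * nf f ≤ ε * R := by nlinarith
    exact le_of_mul_le_mul_left h5 hε
  have : Nonempty {f // f ∈ FB R} := ⟨⟨f0, mem_FB.2 ⟨f0_sb, by rw [f0_nf]; push_cast; exact hR⟩⟩⟩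
  obtain ⟨y, hy0, hy1, hQ, hy⟩ := mix_gen (ι := {f // f ∈ FB R}) (fun f => gram (V f.1)) C0 ε hε.le
    (fun f a b => gram_symm _ a b) (fun f a b => hV f.1 (mem_FB.1 f.2).1 a b)
    (fun f x => by rw [qf_gram]; exact Finset.sum_nonneg (fun k _ => sq_nonneg _))
    (fun f => w f.1) (fun f => hw.cont f.1 ε (ε + C0) hε) (fun f Q _ => hw.nonneg f.1 Q)
    (by
      intro Q hQ
      obtain ⟨f, hf⟩ := hw.pos Q ε (ε + C0) hε hQ
      exact Finset.sum_pos' (fun f _ => hw.nonneg f.1 Q) ⟨⟨f, hmem f Q hQ hf⟩, Finset.mem_univ _, hf⟩)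
  set Q := ε • 1 + ∑ i : {f // f ∈ FB R}, y i • gram (V i.1) with hQdef
  have hconv : ∀ {E : Type} [AddCommMonoid E] (g : (Fin 4 → Fin 3 → ℤ) → E),
      ∑ i : {f // f ∈ FB R}, g i.1 = ∑ f ∈ FB R, g f := by
    intro E _ g
    exact Finset.sum_coe_sort (FB R) g
  set y' : (Fin 4 → Fin 3 → ℤ) → ℝ := fun f => if h : f ∈ FB R then y ⟨f, h⟩ else 0 with hy'
  have hyy : ∀ i : {f // f ∈ FB R}, y' i.1 = y i := by
    intro i
    simp only [hy', dif_pos i.2]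
  have hQ' : Q = ε • 1 + ∑ f ∈ FB R, y' f • gram (V f) := by
    rw [hQdef, ← hconv (fun f => y' f • gram (V f))]
    simp only [hyy]
  refine ⟨FB R, y', Q, fun f hf => (mem_FB.1 hf).1, ?_, ?_, ?_, hQ', hQ, fun f hf => hmem f Q hQ hf, ?_, ?_⟩
  · intro f
    simp only [hy']
    split_ifs with h
    · exact hy0 _
    · exact le_rfl
  · intro f hf
    simp only [hy', dif_neg hf]
  · rw [← hconv y', ← hy1]
    simp only [hyy]
  · obtain ⟨f, hf⟩ := hw.pos Q ε (ε + C0) hε hQ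
    exact Finset.sum_pos' (fun f _ => hw.nonneg f Q) ⟨f, hmem f Q hQ hf, hf⟩
  · intro f
    by_cases hf : f ∈ FB R
    · have h1 := hy ⟨f, hf⟩
      rw [hconv (fun f => w f Q)] at h1
      rw [← hyy] at h1
      exact h1
    · have h1 : w f Q = 0 := by
        by_contra h
        exact hf (hmem f Q hQ (lt_of_le_of_ne (hw.nonneg f Q) (Ne.symm h)))
      rw [h1]
      simp only [hy', dif_neg hf, zero_mul]

end Pool.Agent.Helper1.FX
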