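import Mathlib
import Pool.Agent.Helper12.LW.Defs

/-!
# MP_be0fb5: maximal lattice-free sets, part 1

Maximal convex sets without lattice points in the interior: existence, closedness, rays, recurrence.
-/

set_option autoImplicit false

namespace Pool.Agent.Helper1.FX.Max

open Matrix Set Filter Topology
open Pool.Agent.Helper12.LW (LFree toR)

/-- convex and without lattice points in the interior -/
def Fr (A : Set (Fin 3 → ℝ)) : Prop := Convex ℝ A ∧ ∀ z : Fin 3 → ℤ, toR z ∉ interior A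

/-- existence of a maximal set -/
theorem exists_maximal (K : Set (Fin 3 → ℝ)) (hK : Fr K) : ∃ M, K ⊆ M ∧ Maximal Fr M := by
  obtain ⟨M, h1, h2⟩ := zorn_subset_nonempty {A : Set (Fin 3 → ℝ) | Fr A} (by
    intro c hc hch hne
    refine ⟨⋃₀ c, ⟨?_, ?_⟩, fun s hs => subset_sUnion_of_mem hs⟩
    · exact hch.directedOn.convex_sUnion fun A hA => (hc hA).1
    · intro z hz
      obtain ⟨b, hb1, hb2⟩ := exists_mem_interior_convexHull_affineBasis (mem_interior_iff_mem_nhds.1 hz)
      have h3 : range b ⊆ ⋃₀ c := (subset_convexHull ℝ _).trans hb2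
      obtain ⟨A, hA, hA2⟩ := hch.directedOn.exists_mem_subset_of_finite_of_subset_sUnion hne
        (finite_range b) h3
      exact (hc hA).2 z (interior_mono (convexHull_min hA2 (hc hA).1) hb1)) K hK
  exact ⟨M, h1, h2⟩

/-- a maximal set is closed -/
theorem isClosed_of_maximal {M : Set (Fin 3 → ℝ)} (hM : Maximal Fr M) (hne : (interior M).Nonempty) :
    IsClosed M := by
  have h1 : Fr (closure M) := by
    refine ⟨hM.prop.1.closure, fun z hz => ?_⟩
    rw [hM.prop.1.interior_closure_eq_interior_of_nonempty_interior hne] at hz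
    exact hM.prop.2 z hz
  exact isClosed_of_closure_subset (hM.le_of_ge h1 subset_closure)

/-- an unbounded closed convex set contains rays of one direction -/
theorem exists_ray {M : Set (Fin 3 → ℝ)} (hcv : Convex ℝ M) (hcl : IsClosed M) (k : Fin 3 → ℝ)
    (hb : ¬ Bornology.IsBounded M) : ∃ d : Fin 3 → ℝ, d ≠ 0 ∧ ∀ x ∈ M, ∀ t : ℝ, 0 ≤ t → x + t • d ∈ M := by
  have h1 : ∀ n : ℕ, ∃ x ∈ M, (n : ℝ) + 1 < ‖x - k‖ := by
    intro n
    by_contra hcon
    push Not at hcon
    apply hb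
    refine (Metric.isBounded_closedBall (x := k) (r := (n : ℝ) + 1)).subset fun x hx => ?_
    rw [mem_closedBall_iff_norm]
    exact hcon x hx
  choose x hx hx' using h1
  have hpos : ∀ n, 0 < ‖x n - k‖ := fun n => lt_trans (by positivity) (hx' n)
  obtain ⟨d, hd, φ, hφ, hlim⟩ := (isCompact_sphere (0 : Fin 3 → ℝ) 1).tendsto_subseq
    (x := fun n => (1 / ‖x n - k‖) • (x n - k)) (by
      intro n
      rw [mem_sphere_zero_iff_norm, norm_smul, Real.norm_eq_abs, abs_of_pos (by have := hpos n; positivity)]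
      have := hpos n
      field_simp)
  refine ⟨d, ?_, ?_⟩
  · rintro rfl
    simp at hd
  intro y hy t ht
  have hinf : Tendsto (fun n => ‖x (φ n) - k‖) atTop atTop := by
    refine tendsto_atTop_mono (fun n => ?_) (tendsto_natCast_atTop_atTop (R := ℝ))
    have h2 := hx' (φ n)
    have h3 : (n : ℝ) ≤ (φ n : ℝ) := by exact_mod_cast hφ.id_le n
    linarith
  have hz : Tendsto (fun n => t / ‖x (φ n) - k‖) atTop (𝓝 0) := tendsto_const_nhds.div_atTop hinf
  have h4 : Tendsto (fun n => y + (t • ((1 / ‖x (φ n) - k‖) • (x (φ n) - k)) + (t / ‖x (φ n) - k‖) • (k - y)))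
      atTop (𝓝 (y + (t • d + (0 : ℝ) • (k - y)))) :=
    tendsto_const_nhds.add ((hlim.const_smul t).add (hz.smul_const (k - y)))
  rw [zero_smul, add_zero] at h4
  refine hcl.mem_of_tendsto h4 ?_
  filter_upwards [hinf.eventually_ge_atTop t] with n hn
  have hp := hpos (φ n)
  have h5 : y + (t • ((1 / ‖x (φ n) - k‖) • (x (φ n) - k)) + (t / ‖x (φ n) - k‖) • (k - y)) =
      (1 - t / ‖x (φ n) - k‖) • y + (t / ‖x (φ n) - k‖) • x (φ n) := by
    ext i
    simp only [Pi.add_apply, Pi.smul_apply, Pi.sub_apply, smul_eq_mul]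
    ring
  rw [h5]
  refine hcv hy (hx (φ n)) ?_ (by positivity) (by ring)
  have : t / ‖x (φ n) - k‖ ≤ 1 := by rw [div_le_one hp]; exact hn
  linarith

/-- recurrence of a line modulo the lattice -/
theorem recurrence (d : Fin 3 → ℝ) (ε T : ℝ) (hε : 0 < ε) (hT : 0 ≤ T) :
    ∃ τ : ℝ, T ≤ τ ∧ ∃ y : Fin 3 → ℤ, ‖τ • d - toR y‖ < ε := by
  set T' := T + 1 with hT'
  have hc : IsCompact (Icc (0 : Fin 3 → ℝ) 1) := isCompact_Icc
  obtain ⟨a, -, φ, hφ, hlim⟩ := hc.tendsto_subseq (x := fun n : ℕ => fun i => Int.fract ((n : ℝ) * T' * d i)) (by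
    intro n
    exact ⟨fun i => Int.fract_nonneg _, fun i => (Int.fract_lt_one _).le⟩)
  obtain ⟨N, hN⟩ := Metric.cauchySeq_iff.1 hlim.cauchySeq ε hε
  have h1 := hN (N + 1) (by omega) N le_rfl
  have h2 : φ N < φ (N + 1) := hφ (by omega)
  refine ⟨((φ (N + 1) : ℝ) - φ N) * T', ?_, fun i => ⌊(φ (N + 1) : ℝ) * T' * d i⌋ - ⌊(φ N : ℝ) * T' * d i⌋, ?_⟩
  · have h3 : (1 : ℝ) ≤ (φ (N + 1) : ℝ) - φ N := by
      have : (φ N : ℝ) + 1 ≤ (φ (N + 1) : ℝ) := by exact_mod_cast h2
      linarith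
    nlinarith
  · rw [dist_eq_norm] at h1
    refine lt_of_eq_of_lt (congrArg norm ?_) h1
    ext i
    simp only [Pi.sub_apply, Pi.smul_apply, smul_eq_mul, toR, Int.cast_sub, Function.comp, Int.fract]
    ring

end Pool.Agent.Helper1.FX.Max
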