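import Mathlib
import Pool.Agent.Helper1.FX.Max1
import Pool.Agent.Helper24.UB.AsLast
import Pool.Agent.Helper84.FL.Geom

/-!
# MP_be0fb5: maximal lattice-free sets, part 2

Cylinders: a convex set without interior lattice points that contains a ray has small width.
-/

set_option autoImplicit false

namespace Pool.Agent.Helper1.FX.Max

open Matrix Set Filter Topology
open Pool.Agent.Helper12.LW (LFree toR)

/-- a linear projection to the plane whose kernel is the line of `d` -/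
noncomputable def pr (d : Fin 3 → ℝ) (i : Fin 3) : (Fin 3 → ℝ) →ₗ[ℝ] (Fin 2 → ℝ) :=
  LinearMap.pi fun l => LinearMap.proj (i.succAbove l) - (d (i.succAbove l) / d i) • LinearMap.proj i

theorem pr_ker (d : Fin 3 → ℝ) (i : Fin 3) (hi : d i ≠ 0) (x : Fin 3 → ℝ) (hx : pr d i x = 0) :
    x = (x i / d i) • d := by
  ext j
  rcases Fin.eq_self_or_eq_succAbove i j with rfl | ⟨l, rfl⟩
  · simp only [Pi.smul_apply, smul_eq_mul]
    field_simp
  · have h1 := congrFun hx l
    simp only [pr, LinearMap.pi_apply, LinearMap.sub_apply, LinearMap.smul_apply, LinearMap.proj_apply,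
      smul_eq_mul, Pi.zero_apply] at h1
    simp only [Pi.smul_apply, smul_eq_mul]
    have h2 : x (i.succAbove l) = d (i.succAbove l) / d i * x i := by linarith
    rw [h2]
    ring

/-- the plane: asymmetry two, lifted -/
theorem exists_planar_centre (K : Set (Fin 3 → ℝ)) (hK : IsCompact K) (hcv : Convex ℝ K) (hne : K.Nonempty)
    (d : Fin 3 → ℝ) (hd : d ≠ 0) :
    ∃ c : Fin 3 → ℝ, ∀ x ∈ K, ∃ k ∈ K, ∃ t : ℝ, c - (1 / 2 : ℝ) • (x - c) = k + t • d := by
  obtain ⟨i, hi⟩ : ∃ i, d i ≠ 0 := by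
    by_contra hcon
    push Not at hcon
    exact hd (funext hcon)
  have hsur : Function.Surjective (pr d i) := by
    intro y
    refine ⟨fun j => if h : j = i then 0 else y ((finSuccEquiv' i j).get (by
      rw [Option.isSome_iff_ne_none]
      intro h2
      exact h ((finSuccEquiv'_eq_none).1 h2).symm)), ?_⟩
    ext l
    simp [pr, Fin.succAbove_ne]
  let F : K → Set (Fin 2 → ℝ) := fun x => (fun k => (1 / 3 : ℝ) • (pr d i x.1 + (2 : ℝ) • pr d i k)) '' K
  have hcont : Continuous (pr d i) := LinearMap.continuous_of_finiteDimensional _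
  have h1 : (⋂ x, F x).Nonempty := by
    refine Convex.helly_theorem_compact' (𝕜 := ℝ) ?_ ?_ ?_
    · rintro x _ ⟨k, hk, rfl⟩ _ ⟨k', hk', rfl⟩ a b ha hb hab
      refine ⟨a • k + b • k', hcv hk hk' ha hb hab, ?_⟩
      have h2 : pr d i x.1 = a • pr d i x.1 + b • pr d i x.1 := by rw [← add_smul, hab, one_smul]
      simp only [map_add, map_smul]
      conv_lhs => rw [h2]
      simp only [smul_add, smul_smul]
      ext l
      simp only [Pi.add_apply, Pi.smul_apply, smul_eq_mul]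
      ring
    · intro x
      exact hK.image (by fun_prop)
    · intro I hI
      have hfr : Module.finrank ℝ (Fin 2 → ℝ) = 2 := by simp
      rw [hfr] at hI
      have key : ∀ a b c : K, ∃ y, y ∈ F a ∧ y ∈ F b ∧ y ∈ F c := by
        intro a b c
        have hm : ∀ a b : K, (1 / 2 : ℝ) • (a : Fin 3 → ℝ) + (1 / 2 : ℝ) • (b : Fin 3 → ℝ) ∈ K :=
          fun a b => hcv a.2 b.2 (by norm_num) (by norm_num) (by norm_num)
        refine ⟨(1 / 3 : ℝ) • (pr d i a + pr d i b + pr d i c), ⟨_, hm b c, ?_⟩, ⟨_, hm a c, ?_⟩, ⟨_, hm a b, ?_⟩⟩ <;>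
        · simp only [map_add, map_smul]
          ext l
          simp only [Pi.add_apply, Pi.smul_apply, smul_eq_mul]
          ring
      have hcases : ∃ a b c : K, ∀ x ∈ I, x = a ∨ x = b ∨ x = c := by
        have hk0 : ∃ x, x ∈ K := hne
        obtain ⟨k0, hk0⟩ := hk0
        have h3 : I.card = 0 ∨ I.card = 1 ∨ I.card = 2 ∨ I.card = 3 := by omega
        classical
        rcases h3 with h3 | h3 | h3 | h3
        · rw [Finset.card_eq_zero] at h3
          refine ⟨⟨k0, hk0⟩, ⟨k0, hk0⟩, ⟨k0, hk0⟩, ?_⟩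
          intro x hx
          rw [h3] at hx
          simp at hx
        · obtain ⟨a, rfl⟩ := Finset.card_eq_one.1 h3
          exact ⟨a, a, a, by simp⟩
        · obtain ⟨a, b, -, rfl⟩ := Finset.card_eq_two.1 h3
          exact ⟨a, b, b, by simp⟩
        · obtain ⟨a, b, c, -, -, -, rfl⟩ := Finset.card_eq_three.1 h3
          exact ⟨a, b, c, by simp⟩
      obtain ⟨a, b, c, h4⟩ := hcases
      obtain ⟨y, hy1, hy2, hy3⟩ := key a b c
      refine ⟨y, ?_⟩
      rw [mem_iInter₂]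
      intro x hx
      rcases h4 x hx with rfl | rfl | rfl
      · exact hy1
      · exact hy2
      · exact hy3
  obtain ⟨y, hy⟩ := h1
  obtain ⟨c, rfl⟩ := hsur y
  refine ⟨c, fun x hx => ?_⟩
  obtain ⟨k, hk, h2⟩ := mem_iInter.1 hy ⟨x, hx⟩
  simp only at h2
  have h3 : pr d i (c - (1 / 2 : ℝ) • (x - c) - k) = 0 := by
    simp only [map_sub, map_smul]
    rw [← h2]
    ext l
    simp only [Pi.add_apply, Pi.sub_apply, Pi.smul_apply, smul_eq_mul, Pi.zero_apply]
    ring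
  have h4 := pr_ker d i hi _ h3
  refine ⟨k, hk, (c - (1 / 2 : ℝ) • (x - c) - k) i / d i, ?_⟩
  rw [← h4]
  abel

/-- a convex set without interior lattice points that contains a ray is not wide -/
theorem no_ray {K M : Set (Fin 3 → ℝ)} (hK : LFree K) (hKM : K ⊆ M) (hM : Fr M)
    (hw : ¬ Pool.Agent.Helper84.FL.WidthLe K (2 + Real.sqrt 2)) (d : Fin 3 → ℝ) (hd : d ≠ 0)
    (hray : ∀ x ∈ M, ∀ t : ℝ, 0 ≤ t → x + t • d ∈ M) : False := by
  have hne : K.Nonempty := hK.interior_nonempty.mono interior_subset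
  obtain ⟨c, hc⟩ := exists_planar_centre K hK.compact hK.convex hne d hd
  obtain ⟨R, hR⟩ := hK.compact.isBounded.exists_norm_le
  have hdn : 0 < ‖d‖ := norm_pos_iff.2 hd
  set T0 := (‖c‖ + (1 / 2 * (R + ‖c‖)) + R) / ‖d‖ with hT0
  have hR0 : 0 ≤ R := by
    obtain ⟨x, hx⟩ := hne
    exact (norm_nonneg x).trans (hR x hx)
  have hT0' : 0 ≤ T0 := by positivity
  have hc' : ∀ x ∈ K, ∃ k ∈ K, ∃ t : ℝ, |t| ≤ T0 ∧ c - (1 / 2 : ℝ) • (x - c) = k + t • d := by
    intro x hx
    obtain ⟨k, hk, t, ht⟩ := hc x hx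
    refine ⟨k, hk, t, ?_, ht⟩
    rw [hT0, le_div_iff₀ hdn]
    have h1 : |t| * ‖d‖ = ‖t • d‖ := by rw [norm_smul, Real.norm_eq_abs]
    have h2 : t • d = c - (1 / 2 : ℝ) • (x - c) - k := by rw [ht]; abel
    rw [h1, h2]
    have h3 : ‖c - (1 / 2 : ℝ) • (x - c) - k‖ ≤ ‖c - (1 / 2 : ℝ) • (x - c)‖ + ‖k‖ := norm_sub_le _ _
    have h4 : ‖c - (1 / 2 : ℝ) • (x - c)‖ ≤ ‖c‖ + ‖(1 / 2 : ℝ) • (x - c)‖ := norm_sub_le _ _
    have h5 : ‖(1 / 2 : ℝ) • (x - c)‖ = 1 / 2 * ‖x - c‖ := by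
      rw [norm_smul, Real.norm_eq_abs, abs_of_pos (by norm_num)]
    have h6 : ‖x - c‖ ≤ ‖x‖ + ‖c‖ := norm_sub_le _ _
    have h7 := hR x hx
    have h8 := hR k hk
    rw [h5] at h4
    linarith
  set T := 2 * T0 with hT
  set KT : Set (Fin 3 → ℝ) := (fun p : (Fin 3 → ℝ) × ℝ => p.1 + p.2 • d) '' (K ×ˢ Icc (-T) T) with hKT
  have hKKT : K ⊆ KT := by
    intro x hx
    refine ⟨(x, 0), ⟨hx, by constructor <;> simp <;> positivity⟩, by simp⟩
  have hcomp : IsCompact KT := (hK.compact.prod isCompact_Icc).image (by fun_prop)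
  have hconv : Convex ℝ KT := by
    rintro _ ⟨⟨x, t⟩, ⟨hx, ht⟩, rfl⟩ _ ⟨⟨x', t'⟩, ⟨hx', ht'⟩, rfl⟩ a b ha hb hab
    refine ⟨(a • x + b • x', a • t + b • t'), ⟨hK.convex hx hx' ha hb hab,
      (convex_Icc (-T) T) ht ht' ha hb hab⟩, ?_⟩
    ext l
    simp only [Pi.add_apply, Pi.smul_apply, smul_eq_mul]
    ring
  have hint : (interior KT).Nonempty := hK.interior_nonempty.mono (interior_mono hKKT)
  have hfree : ∀ z : Fin 3 → ℤ, (fun i => (z i : ℝ)) ∉ interior KT := by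
    intro z hz
    obtain ⟨ε, hε, hball⟩ := Metric.mem_nhds_iff.1 (mem_interior_iff_mem_nhds.1 hz)
    obtain ⟨τ, hτ, y, hy⟩ := recurrence d ε T hε (by positivity)
    apply hM.2 (z + y)
    rw [mem_interior_iff_mem_nhds, Metric.mem_nhds_iff]
    refine ⟨ε - ‖τ • d - toR y‖, by linarith, ?_⟩
    intro x hx
    rw [Metric.mem_ball, dist_eq_norm] at hx
    have h1 : x - τ • d ∈ KT := by
      apply hball
      rw [Metric.mem_ball, dist_eq_norm]
      have h2 : x - τ • d - (fun i => (z i : ℝ)) = (x - toR (z + y)) - (τ • d - toR y) := by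
        ext l
        simp only [toR, Pi.sub_apply, Pi.smul_apply, Pi.add_apply, smul_eq_mul, Int.cast_add]
        ring
      rw [h2]
      have h3 := norm_sub_le (x - toR (z + y)) (τ • d - toR y)
      linarith
    obtain ⟨⟨k, t⟩, ⟨hk, ht⟩, h2⟩ := h1
    simp only at h2 hk ht
    have h3 : x = k + (t + τ) • d := by
      have h4 : x = (x - τ • d) + τ • d := by abel
      rw [h4, ← h2, add_smul]
      abel
    rw [h3]
    exact hray k (hKM hk) _ (by linarith [ht.1])
  have hcen : ∀ x ∈ KT, c - (1 / (2 : ℝ)) • (x - c) ∈ KT := by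
    rintro _ ⟨⟨x, t⟩, ⟨hx, ht⟩, rfl⟩
    obtain ⟨k, hk, t', ht', h1⟩ := hc' x hx
    simp only at hx ht
    have h2 := abs_le.1 ht'
    refine ⟨(k, t' - t / 2), ⟨hk, ?_, ?_⟩, ?_⟩
    · linarith [ht.1, ht.2]
    · linarith [ht.1, ht.2]
    · have h3 : c - (1 / 2 : ℝ) • (x + t • d - c) = c - (1 / 2 : ℝ) • (x - c) - (t / 2) • d := by
        ext l
        simp only [Pi.add_apply, Pi.sub_apply, Pi.smul_apply, smul_eq_mul]
        ring
      simp only
      rw [h3, h1, sub_smul]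
      abel
  obtain ⟨y, hy, h1⟩ := Pool.Agent.Helper24.UB.asym_direction KT hcomp hconv hint hfree c 2 (by norm_num) hcen
  exact hw ⟨y, hy, fun x hx x' hx' => (h1 x (hKKT hx) x' (hKKT hx')).trans
    (Pool.Agent.Helper24.UB.value_le 2 (by norm_num) (by norm_num))⟩

end Pool.Agent.Helper1.FX.Max
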