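import Mathlib
import Pool.Agent.Helper1.FX.Max2

/-!
# MP_be0fb5: a wide lattice-free body lies in a lattice-free polytope with lattice points on all facets

`exists_max`: `K` lattice-free and not of width at most `2 + √2`. Then `K ⊆ M` for a lattice-free body
`M = {x | v z · x ≤ v z · z, z ∈ T}`, `T` a finite set of lattice points of `M`.
-/

set_option autoImplicit false

namespace Pool.Agent.Helper1.FX.Max

open Matrix Set Filter Topology
open Pool.Agent.Helper12.LW (LFree toR)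

/-- finitely many lattice points in a ball -/
theorem finite_lattice (R : ℝ) : {z : Fin 3 → ℤ | ‖toR z‖ ≤ R}.Finite := by
  refine (Set.finite_Icc (fun _ : Fin 3 => -⌈R⌉) (fun _ : Fin 3 => ⌈R⌉)).subset fun z hz => ?_
  have h1 : ∀ i, |(z i : ℝ)| ≤ R := by
    intro i
    have h2 := norm_le_pi_norm (toR z) i
    rw [Real.norm_eq_abs] at h2
    exact h2.trans hz
  constructor
  · intro i
    have h2 := (abs_le.1 (h1 i)).1
    have h3 : (-(⌈R⌉ : ℤ) : ℝ) ≤ (z i : ℝ) := by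
      have := Int.le_ceil R
      linarith
    exact_mod_cast h3
  · intro i
    have h2 := (abs_le.1 (h1 i)).2
    have h3 : (z i : ℝ) ≤ ((⌈R⌉ : ℤ) : ℝ) := by
      have := Int.le_ceil R
      linarith
    exact_mod_cast h3

/-- functionals are dot products -/
theorem exists_vec (f : (Fin 3 → ℝ) →L[ℝ] ℝ) : ∃ v : Fin 3 → ℝ, ∀ x, f x = v ⬝ᵥ x := by
  refine ⟨fun i => f (Pi.single i 1), fun x => ?_⟩
  have h1 := LinearMap.pi_apply_eq_sum_univ f.toLinearMap x
  simp only [ContinuousLinearMap.coe_coe, smul_eq_mul] at h1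
  rw [h1]
  simp only [dotProduct]
  exact Finset.sum_congr rfl fun i _ => by
    have h2 : (fun j => if i = j then (1 : ℝ) else 0) = Pi.single i 1 := by
      ext j
      rw [Pi.single_apply]
      by_cases h : i = j
      · simp [h]
      · simp [h, Ne.symm h]
    rw [h2, mul_comm]

/-- separation of a lattice point from a lattice-free body -/
theorem exists_sepv {M : Set (Fin 3 → ℝ)} (hcv : Convex ℝ M) (hcl : IsClosed M) (hne : (interior M).Nonempty)
    (p : Fin 3 → ℝ) (hp : p ∉ interior M) :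
    ∃ v : Fin 3 → ℝ, v ≠ 0 ∧ (∀ x ∈ M, v ⬝ᵥ x ≤ v ⬝ᵥ p) ∧ (p ∉ M → ∀ x ∈ M, v ⬝ᵥ x < v ⬝ᵥ p) := by
  by_cases hpM : p ∈ M
  · obtain ⟨f, hf⟩ := geometric_hahn_banach_open_point hcv.interior isOpen_interior hp
    obtain ⟨v, hv⟩ := exists_vec f
    have h1 : ∀ x ∈ M, v ⬝ᵥ x ≤ v ⬝ᵥ p := by
      intro x hx
      have h2 : x ∈ closure (interior M) := by
        rw [hcv.closure_interior_eq_closure_of_nonempty_interior hne]
        exact subset_closure hx
      have h3 : closure (interior M) ⊆ {x | v ⬝ᵥ x ≤ v ⬝ᵥ p} := by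
        refine closure_minimal (fun y hy => ?_) (isClosed_le (by fun_prop) continuous_const)
        have := hf y hy
        rw [hv, hv] at this
        exact this.le
      exact h3 h2
    refine ⟨v, ?_, h1, fun h => absurd hpM h⟩
    rintro rfl
    obtain ⟨y, hy⟩ := hne
    have := hf y hy
    rw [hv, hv] at this
    simp at this
  · obtain ⟨f, u, h1, h2⟩ := geometric_hahn_banach_closed_point hcv hcl hpM
    obtain ⟨v, hv⟩ := exists_vec f
    have h3 : ∀ x ∈ M, v ⬝ᵥ x < v ⬝ᵥ p := by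
      intro x hx
      have := (h1 x hx).trans h2
      rwa [hv, hv] at this
    refine ⟨v, ?_, fun x hx => (h3 x hx).le, fun _ => h3⟩
    rintro rfl
    obtain ⟨y, hy⟩ := hne
    have := h3 y (interior_subset hy)
    simp at this

/-- a point with a supporting half-space is not interior -/
theorem not_mem_interior {N : Set (Fin 3 → ℝ)} (v p : Fin 3 → ℝ) (hv : v ≠ 0) (h : ∀ x ∈ N, v ⬝ᵥ x ≤ v ⬝ᵥ p) :
    p ∉ interior N := by
  intro hp
  have h1 : N ∈ 𝓝 p := mem_interior_iff_mem_nhds.1 hp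
  have h2 : Tendsto (fun t : ℝ => p + t • v) (𝓝[>] 0) (𝓝 p) := by
    have h3 : Tendsto (fun t : ℝ => p + t • v) (𝓝 0) (𝓝 (p + (0 : ℝ) • v)) :=
      Continuous.tendsto (by fun_prop) 0
    rw [zero_smul, add_zero] at h3
    exact h3.mono_left nhdsWithin_le_nhds
  obtain ⟨t, ht, ht0⟩ := ((h2.eventually h1).and self_mem_nhdsWithin).exists
  have h4 := h _ ht
  rw [dotProduct_add, dotProduct_smul, smul_eq_mul] at h4
  have h5 : 0 < v ⬝ᵥ v := by
    refine lt_of_le_of_ne (Finset.sum_nonneg fun i _ => mul_self_nonneg (v i)) fun h => hv ?_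
    exact dotProduct_self_eq_zero.1 h.symm
  have h6 : (0 : ℝ) < t := ht0
  nlinarith [mul_pos h6 h5]

theorem comb_le {a b p q w : ℝ} (ha : 0 ≤ a) (hb : 0 ≤ b) (hab : a + b = 1) (hp : p ≤ w) (hq : q ≤ w) :
    a * p + b * q ≤ w := by
  have h1 := mul_le_mul_of_nonneg_left hp ha
  have h2 := mul_le_mul_of_nonneg_left hq hb
  have h3 : a * w + b * w = w := by rw [← add_mul, hab, one_mul]
  linarith

/-- the body lies in a maximal lattice-free polytope with lattice points on all facets -/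
theorem exists_max0 {K : Set (Fin 3 → ℝ)} (hK : LFree K)
    (hw : ¬ Pool.Agent.Helper84.FL.WidthLe K (2 + Real.sqrt 2)) :
    ∃ (M : Set (Fin 3 → ℝ)) (T : Finset (Fin 3 → ℤ)) (v : (Fin 3 → ℤ) → Fin 3 → ℝ), K ⊆ M ∧ LFree M ∧ Maximal Fr M ∧
      (∀ z ∈ T, v z ≠ 0) ∧ (∀ z ∈ T, toR z ∈ M) ∧ M = {x | ∀ z ∈ T, v z ⬝ᵥ x ≤ v z ⬝ᵥ toR z} := by
  classical
  obtain ⟨M, hKM, hM⟩ := exists_maximal K ⟨hK.convex, hK.free⟩
  have hint : (interior M).Nonempty := hK.interior_nonempty.mono (interior_mono hKM)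
  have hcl := isClosed_of_maximal hM hint
  obtain ⟨k0, hk0⟩ := hint.mono interior_subset
  have hbd : Bornology.IsBounded M := by
    by_contra hb
    obtain ⟨d, hd, hray⟩ := exists_ray hM.prop.1 hcl k0 hb
    exact no_ray hK hKM hM.prop hw d hd hray
  have hcomp : IsCompact M := Metric.isCompact_of_isClosed_isBounded hcl hbd
  obtain ⟨R, hR⟩ := hbd.exists_norm_le
  have hfin := finite_lattice (R + 1)
  have hsep : ∀ z : Fin 3 → ℤ, ∃ v : Fin 3 → ℝ, v ≠ 0 ∧ (∀ x ∈ M, v ⬝ᵥ x ≤ v ⬝ᵥ toR z) ∧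
      (toR z ∉ M → ∀ x ∈ M, v ⬝ᵥ x < v ⬝ᵥ toR z) :=
    fun z => exists_sepv hM.prop.1 hcl hint (toR z) (hM.prop.2 z)
  choose v hv0 hv1 hv2 using hsep
  set B : Finset (Fin 3 → ℤ) := hfin.toFinset with hB
  have hBmem : ∀ z, z ∈ B ↔ ‖toR z‖ ≤ R + 1 := by
    intro z
    rw [hB, Set.Finite.mem_toFinset]
    rfl
  set N : Set (Fin 3 → ℝ) := {x | ‖x‖ ≤ R + 1 ∧ ∀ z ∈ B, v z ⬝ᵥ x ≤ v z ⬝ᵥ toR z} with hN
  have hMN : M ⊆ N := fun x hx => ⟨by linarith [hR x hx], fun z _ => hv1 z x hx⟩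
  have hNfr : Fr N := by
    constructor
    · intro x hx y hy a b ha hb hab
      refine ⟨?_, fun z hz => ?_⟩
      · have h1 := (convex_closedBall (0 : Fin 3 → ℝ) (R + 1)) (mem_closedBall_zero_iff.2 hx.1)
          (mem_closedBall_zero_iff.2 hy.1) ha hb hab
        exact mem_closedBall_zero_iff.1 h1
      · rw [dotProduct_add, dotProduct_smul, dotProduct_smul, smul_eq_mul, smul_eq_mul]
        exact comb_le ha hb hab (hx.2 z hz) (hy.2 z hz)
    · intro z hz
      have h1 : z ∈ B := (hBmem z).2 (interior_subset hz).1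
      exact not_mem_interior (v z) (toR z) (hv0 z) (fun x hx => hx.2 z h1) hz
  have hNM : N ⊆ M := hM.le_of_ge hNfr hMN
  set T : Finset (Fin 3 → ℤ) := B.filter fun z => toR z ∈ M with hT
  set P : Set (Fin 3 → ℝ) := {x | ∀ z ∈ T, v z ⬝ᵥ x ≤ v z ⬝ᵥ toR z} with hP
  set O : Set (Fin 3 → ℝ) := {x | ‖x‖ < R + 1} ∩ ⋂ z ∈ B.filter fun z => toR z ∉ M,
    {x | v z ⬝ᵥ x < v z ⬝ᵥ toR z} with hO
  have hMP : M ⊆ P := fun x hx z _ => hv1 z x hx
  have hMO : M ⊆ O := by
    intro x hx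
    refine ⟨?_, mem_iInter₂.2 fun z hz => hv2 z (Finset.mem_filter.1 hz).2 x hx⟩
    have := hR x hx
    change ‖x‖ < R + 1
    linarith
  have hPO : P ∩ O ⊆ M := by
    rintro x ⟨hxP, hxO⟩
    apply hNM
    refine ⟨(le_of_lt hxO.1), fun z hz => ?_⟩
    by_cases hzM : toR z ∈ M
    · exact hxP z (Finset.mem_filter.2 ⟨hz, hzM⟩)
    · exact (mem_iInter₂.1 hxO.2 z (Finset.mem_filter.2 ⟨hz, hzM⟩)).le
  have hOopen : IsOpen O := by
    refine (isOpen_lt (by fun_prop) continuous_const).inter ?_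
    exact isOpen_biInter_finset fun z _ => isOpen_lt (by fun_prop) continuous_const
  have hPcv : Convex ℝ P := by
    intro x hx y hy a b ha hb hab z hz
    rw [dotProduct_add, dotProduct_smul, dotProduct_smul, smul_eq_mul, smul_eq_mul]
    exact comb_le ha hb hab (hx z hz) (hy z hz)
  have hPM : P ⊆ M := by
    have hpre := isPreconnected_iff_subset_of_disjoint.1 hPcv.isPreconnected O Mᶜ hOopen hcl.isOpen_compl
      (fun x _ => by
        by_cases h : x ∈ M
        · exact Or.inl (hMO h)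
        · exact Or.inr h) (by
        rw [Set.eq_empty_iff_forall_notMem]
        rintro x ⟨hxP, hxO, hxM⟩
        exact hxM (hPO ⟨hxP, hxO⟩))
    rcases hpre with h | h
    · exact fun x hx => hPO ⟨hx, h hx⟩
    · exact absurd hk0 (h (hMP hk0))
  exact ⟨M, T, v, hKM, ⟨hcomp, hM.prop.1, hint, hM.prop.2⟩, hM, fun z _ => hv0 z,
    fun z hz => (Finset.mem_filter.1 hz).2, hMP.antisymm hPM⟩

/-- the body lies in a lattice-free polytope with lattice points on all facets -/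
theorem exists_max {K : Set (Fin 3 → ℝ)} (hK : LFree K)
    (hw : ¬ Pool.Agent.Helper84.FL.WidthLe K (2 + Real.sqrt 2)) :
    ∃ (M : Set (Fin 3 → ℝ)) (T : Finset (Fin 3 → ℤ)) (v : (Fin 3 → ℤ) → Fin 3 → ℝ), K ⊆ M ∧ LFree M ∧
      (∀ z ∈ T, v z ≠ 0) ∧ (∀ z ∈ T, toR z ∈ M) ∧ M = {x | ∀ z ∈ T, v z ⬝ᵥ x ≤ v z ⬝ᵥ toR z} := by
  obtain ⟨M, T, v, h1, h2, -, h3⟩ := exists_max0 hK hw
  exact ⟨M, T, v, h1, h2, h3⟩

end Pool.Agent.Helper1.FX.Max

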