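import Mathlib
import Pool.Agent.Helper1.FX.Max

/-!
# MP_be0fb5: lattice points in the relative interiors of the facets

For a maximal lattice-free polytope the facets can be indexed by lattice points in their relative interiors.
-/

set_option autoImplicit false

namespace Pool.Agent.Helper1.FX.Max

open Matrix Set Filter Topology
open Pool.Agent.Helper12.LW (LFree toR)

/-- interior points satisfy a nontrivial valid inequality strictly -/
theorem lt_of_mem_interior {N : Set (Fin 3 → ℝ)} (v p : Fin 3 → ℝ) (β : ℝ) (hv : v ≠ 0) (h : ∀ x ∈ N, v ⬝ᵥ x ≤ β)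
    (hp : p ∈ interior N) : v ⬝ᵥ p < β := by
  refine lt_of_le_of_ne (h p (interior_subset hp)) fun he => ?_
  exact not_mem_interior v p hv (fun x hx => by rw [he]; exact h x hx) hp

/-- strict inequalities give an interior point -/
theorem mem_interior_of_lt {N : Set (Fin 3 → ℝ)} {ι : Type} (S : Finset ι) (v : ι → Fin 3 → ℝ) (β : ι → ℝ)
    (h : ∀ x, (∀ i ∈ S, v i ⬝ᵥ x ≤ β i) → x ∈ N) (p : Fin 3 → ℝ) (hp : ∀ i ∈ S, v i ⬝ᵥ p < β i) : p ∈ interior N := by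
  rw [mem_interior]
  refine ⟨⋂ i ∈ S, {x | v i ⬝ᵥ x < β i}, ?_, ?_, ?_⟩
  · intro x hx
    exact h x fun i hi => (mem_iInter₂.1 hx i hi).le
  · exact isOpen_biInter_finset fun i _ => isOpen_lt (by fun_prop) continuous_const
  · exact mem_iInter₂.2 fun i hi => hp i hi

/-- one pushed facet: a lattice point in the relative interior -/
theorem exists_rel {M : Set (Fin 3 → ℝ)} (hmax : Maximal Fr M) (hc : IsCompact M) (hint : (interior M).Nonempty)
    (T : Finset (Fin 3 → ℤ)) (v : (Fin 3 → ℤ) → Fin 3 → ℝ) (β : (Fin 3 → ℤ) → ℝ) (hv : ∀ z ∈ T, v z ≠ 0)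
    (hM : M = {x | ∀ z ∈ T, v z ⬝ᵥ x ≤ β z}) (j : Fin 3 → ℤ) (hj : j ∈ T)
    (hirr : ∃ x, (∀ z ∈ T, z ≠ j → v z ⬝ᵥ x ≤ β z) ∧ β j < v j ⬝ᵥ x) :
    ∃ y : Fin 3 → ℤ, (∀ z ∈ T, z ≠ j → v z ⬝ᵥ toR y < β z) ∧ v j ⬝ᵥ toR y = β j := by
  classical
  obtain ⟨x0, hx0, hx0j⟩ := hirr
  obtain ⟨k, hk⟩ := hint
  have hkM : k ∈ M := interior_subset hk
  have hk' : ∀ z ∈ T, v z ⬝ᵥ k < β z := by
    intro z hz
    refine lt_of_mem_interior (v z) k (β z) (hv z hz) (fun x hx => ?_) hk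
    rw [hM] at hx
    exact hx z hz
  obtain ⟨N, hN⟩ : ∃ N : ℝ → Set (Fin 3 → ℝ), N = fun ε => {x | (∀ z ∈ T, z ≠ j → v z ⬝ᵥ x ≤ β z) ∧ v j ⬝ᵥ x ≤ β j + ε} :=
    ⟨_, rfl⟩
  have hNcv : ∀ ε, Convex ℝ (N ε) := by
    intro ε
    rw [hN]
    intro x hx y hy a b ha hb hab
    refine ⟨fun z hz hzj => ?_, ?_⟩
    · rw [dotProduct_add, dotProduct_smul, dotProduct_smul, smul_eq_mul, smul_eq_mul]
      exact comb_le ha hb hab (hx.1 z hz hzj) (hy.1 z hz hzj)
    · rw [dotProduct_add, dotProduct_smul, dotProduct_smul, smul_eq_mul, smul_eq_mul]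
      exact comb_le ha hb hab hx.2 hy.2
  have hMN : ∀ ε, 0 ≤ ε → M ⊆ N ε := by
    intro ε hε x hx
    rw [hM] at hx
    rw [hN]
    exact ⟨fun z hz _ => hx z hz, by linarith [hx j hj]⟩
  -- a lattice point in the pushed set
  have hstep : ∀ ε, 0 < ε → ∃ y : Fin 3 → ℤ, (∀ z ∈ T, z ≠ j → v z ⬝ᵥ toR y < β z) ∧ β j ≤ v j ⬝ᵥ toR y ∧
      v j ⬝ᵥ toR y < β j + ε := by
    intro ε hε
    have hnot : ¬ Fr (N ε) := by
      intro hfr
      have h1 : N ε ⊆ M := hmax.le_of_ge hfr (hMN ε hε.le)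
      -- a point of the segment from `k` to `x0` beyond the facet
      have h2 := hk' j hj
      obtain ⟨a, ha⟩ : ∃ a : ℝ, a = (β j + min ε (v j ⬝ᵥ x0 - β j) - v j ⬝ᵥ k) / (v j ⬝ᵥ x0 - v j ⬝ᵥ k) := ⟨_, rfl⟩
      have hden : 0 < v j ⬝ᵥ x0 - v j ⬝ᵥ k := by linarith
      have hm0 : 0 < min ε (v j ⬝ᵥ x0 - β j) := lt_min hε (by linarith)
      have ha0 : 0 ≤ a := by rw [ha]; exact div_nonneg (by linarith) hden.le
      have ha1 : a ≤ 1 := by
        rw [ha, div_le_one hden]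
        linarith [min_le_right ε (v j ⬝ᵥ x0 - β j)]
      have hval : v j ⬝ᵥ ((1 - a) • k + a • x0) = β j + min ε (v j ⬝ᵥ x0 - β j) := by
        rw [dotProduct_add, dotProduct_smul, dotProduct_smul, smul_eq_mul, smul_eq_mul]
        have h3 : a * (v j ⬝ᵥ x0 - v j ⬝ᵥ k) = β j + min ε (v j ⬝ᵥ x0 - β j) - v j ⬝ᵥ k := by
          rw [ha]
          field_simp
        linarith
      have hmem : (1 - a) • k + a • x0 ∈ N ε := by
        rw [hN]
        refine ⟨fun z hz hzj => ?_, ?_⟩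
        · rw [dotProduct_add, dotProduct_smul, dotProduct_smul, smul_eq_mul, smul_eq_mul]
          exact comb_le (by linarith) ha0 (by ring) (hk' z hz).le (hx0 z hz hzj)
        · rw [hval]
          linarith [min_le_left ε (v j ⬝ᵥ x0 - β j)]
      have h4 := h1 hmem
      rw [hM] at h4
      have h5 := h4 j hj
      rw [hval] at h5
      linarith
    have h6 : ∃ y : Fin 3 → ℤ, toR y ∈ interior (N ε) := by
      by_contra hcon
      push Not at hcon
      exact hnot ⟨hNcv ε, hcon⟩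
    obtain ⟨y, hy⟩ := h6
    refine ⟨y, fun z hz hzj => ?_, ?_, ?_⟩
    · refine lt_of_mem_interior (v z) (toR y) (β z) (hv z hz) (fun x hx => ?_) hy
      rw [hN] at hx
      exact hx.1 z hz hzj
    · by_contra hcon
      push Not at hcon
      apply hmax.prop.2 y
      refine mem_interior_of_lt T v β (fun x hx => by rw [hM]; exact hx) (toR y) fun z hz => ?_
      by_cases hzj : z = j
      · rw [hzj]; exact hcon
      · refine lt_of_mem_interior (v z) (toR y) (β z) (hv z hz) (fun x hx => ?_) hy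
        rw [hN] at hx
        exact hx.1 z hz hzj
    · refine lt_of_mem_interior (v j) (toR y) (β j + ε) (hv j hj) (fun x hx => ?_) hy
      rw [hN] at hx
      exact hx.2
  -- the pushed set is bounded
  have hcl1 : IsClosed (N 1) := by
    have h1 : N 1 = (⋂ z ∈ T, {x | z ≠ j → v z ⬝ᵥ x ≤ β z}) ∩ {x | v j ⬝ᵥ x ≤ β j + 1} := by
      rw [hN]
      ext x
      simp
    rw [h1]
    refine (isClosed_biInter fun z _ => ?_).inter (isClosed_le (by fun_prop) continuous_const)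
    by_cases hzj : z = j
    · have : {x : Fin 3 → ℝ | z ≠ j → v z ⬝ᵥ x ≤ β z} = univ := by
        ext x
        simp [hzj]
      rw [this]
      exact isClosed_univ
    · have : {x : Fin 3 → ℝ | z ≠ j → v z ⬝ᵥ x ≤ β z} = {x | v z ⬝ᵥ x ≤ β z} := by
        ext x
        simp [hzj]
      rw [this]
      exact isClosed_le (by fun_prop) continuous_const
  have hbd1 : Bornology.IsBounded (N 1) := by
    by_contra hb
    obtain ⟨d, hd, hray⟩ := exists_ray (hNcv 1) hcl1 k hb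
    have hkN : k ∈ N 1 := hMN 1 zero_le_one hkM
    have hle : ∀ z ∈ T, v z ⬝ᵥ d ≤ 0 := by
      intro z hz
      by_contra hcon
      push Not at hcon
      obtain ⟨t, ht⟩ : ∃ t : ℝ, t = (|β z| + 2 + |v z ⬝ᵥ k|) / (v z ⬝ᵥ d) := ⟨_, rfl⟩
      have ht0 : 0 ≤ t := by rw [ht]; positivity
      have h1 := hray k hkN t ht0
      rw [hN] at h1
      have h2 : v z ⬝ᵥ (k + t • d) ≤ β z + 1 := by
        by_cases hzj : z = j
        · rw [hzj]; exact h1.2
        · linarith [h1.1 z hz hzj]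
      rw [dotProduct_add, dotProduct_smul, smul_eq_mul] at h2
      have h3 : t * (v z ⬝ᵥ d) = |β z| + 2 + |v z ⬝ᵥ k| := by
        rw [ht]
        field_simp
      rw [h3] at h2
      have h4 := le_abs_self (β z)
      have h5 := neg_abs_le (v z ⬝ᵥ k)
      linarith
    obtain ⟨R, hR⟩ := hc.isBounded.exists_norm_le
    have hdn : 0 < ‖d‖ := norm_pos_iff.2 hd
    obtain ⟨t, ht⟩ : ∃ t : ℝ, t = (|R| + ‖k‖ + 1) / ‖d‖ := ⟨_, rfl⟩
    have ht0 : 0 ≤ t := by rw [ht]; positivity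
    have h1 : k + t • d ∈ M := by
      rw [hM]
      intro z hz
      rw [dotProduct_add, dotProduct_smul, smul_eq_mul]
      have h2 := (hk' z hz).le
      have h3 := mul_nonneg ht0 (neg_nonneg.2 (hle z hz))
      linarith
    have h2 := hR _ h1
    have h3 : ‖t • d‖ = |R| + ‖k‖ + 1 := by
      rw [norm_smul, Real.norm_eq_abs, abs_of_nonneg ht0, ht]
      field_simp
    have h4 : ‖t • d‖ ≤ ‖k + t • d‖ + ‖k‖ := by
      have := norm_sub_le (k + t • d) k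
      rwa [add_sub_cancel_left] at this
    have h5 := le_abs_self R
    linarith
  obtain ⟨R, hR⟩ := hbd1.exists_norm_le
  have hfin : {y : Fin 3 → ℤ | (∀ z ∈ T, z ≠ j → v z ⬝ᵥ toR y < β z) ∧ β j ≤ v j ⬝ᵥ toR y ∧
      v j ⬝ᵥ toR y < β j + 1}.Finite := by
    refine (finite_lattice R).subset fun y hy => ?_
    apply hR
    rw [hN]
    exact ⟨fun z hz hzj => (hy.1 z hz hzj).le, hy.2.2.le⟩
  obtain ⟨y0, hy0⟩ := hstep 1 one_pos
  obtain ⟨y, hy, hmin⟩ := Set.exists_min_image _ (fun y : Fin 3 → ℤ => v j ⬝ᵥ toR y) hfin ⟨y0, hy0⟩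
  refine ⟨y, hy.1, le_antisymm ?_ hy.2.1⟩
  by_contra hcon
  push Not at hcon
  obtain ⟨y', hy'1, hy'2, hy'3⟩ := hstep (min 1 (v j ⬝ᵥ toR y - β j)) (lt_min one_pos (by linarith))
  have h1 := hmin y' ⟨hy'1, hy'2, by linarith [min_le_left 1 (v j ⬝ᵥ toR y - β j)]⟩
  linarith [min_le_right 1 (v j ⬝ᵥ toR y - β j)]

/-- **The maximal polytope**, its facets indexed by lattice points in their relative interiors. -/
theorem exists_maxR {K : Set (Fin 3 → ℝ)} (hK : LFree K)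
    (hw : ¬ Pool.Agent.Helper84.FL.WidthLe K (2 + Real.sqrt 2)) :
    ∃ (M : Set (Fin 3 → ℝ)) (T : Finset (Fin 3 → ℤ)) (v : (Fin 3 → ℤ) → Fin 3 → ℝ), K ⊆ M ∧ LFree M ∧
      Maximal Fr M ∧ (∀ z ∈ T, v z ≠ 0) ∧ (∀ z ∈ T, toR z ∈ M) ∧ M = {x | ∀ z ∈ T, v z ⬝ᵥ x ≤ v z ⬝ᵥ toR z} ∧
      ∀ z ∈ T, ∀ w ∈ T, w ≠ z → v w ⬝ᵥ toR z < v w ⬝ᵥ toR w := by
  classical
  obtain ⟨M, T, v, hKM, hM, hmax, hne, -, hMeq⟩ := exists_max0 hK hw
  obtain ⟨β, hβ⟩ : ∃ β : (Fin 3 → ℤ) → ℝ, β = fun z => v z ⬝ᵥ toR z := ⟨_, rfl⟩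
  have hMeq' : M = {x | ∀ z ∈ T, v z ⬝ᵥ x ≤ β z} := by rw [hβ]; exact hMeq
  obtain ⟨T', hT', hcard⟩ := Finset.exists_min_image (T.powerset.filter fun T' => M = {x | ∀ z ∈ T', v z ⬝ᵥ x ≤ β z})
    Finset.card ⟨T, Finset.mem_filter.2 ⟨Finset.mem_powerset_self T, hMeq'⟩⟩
  rw [Finset.mem_filter, Finset.mem_powerset] at hT'
  obtain ⟨hT'T, hMT'⟩ := hT'
  have hrel : ∀ j ∈ T', ∃ y : Fin 3 → ℤ, (∀ z ∈ T', z ≠ j → v z ⬝ᵥ toR y < β z) ∧ v j ⬝ᵥ toR y = β j := by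
    intro j hj
    refine exists_rel hmax hM.compact hM.interior_nonempty T' v β (fun z hz => hne z (hT'T hz)) hMT' j hj ?_
    by_contra hcon
    push Not at hcon
    have h1 : M = {x | ∀ z ∈ T'.erase j, v z ⬝ᵥ x ≤ β z} := by
      rw [hMT']
      ext x
      constructor
      · exact fun hx z hz => hx z (Finset.mem_of_mem_erase hz)
      · intro hx z hz
        by_cases hzj : z = j
        · rw [hzj]
          exact hcon x fun w hw hwj => hx w (Finset.mem_erase.2 ⟨hwj, hw⟩)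
        · exact hx z (Finset.mem_erase.2 ⟨hzj, hz⟩)
    have h2 := hcard (T'.erase j) (Finset.mem_filter.2 ⟨Finset.mem_powerset.2 ((Finset.erase_subset j T').trans hT'T), h1⟩)
    rw [Finset.card_erase_of_mem hj] at h2
    have h3 : 0 < T'.card := Finset.card_pos.2 ⟨j, hj⟩
    omega
  choose! y hy1 hy2 using hrel
  have hinj : ∀ i ∈ T', ∀ j ∈ T', y i = y j → i = j := by
    intro i hi j hj hij
    by_contra hne'
    have h1 := hy1 j hj i hi hne'
    rw [← hij, hy2 i hi] at h1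
    exact lt_irrefl _ h1
  obtain ⟨v', hv'⟩ : ∃ v' : (Fin 3 → ℤ) → Fin 3 → ℝ, ∀ j ∈ T', v' (y j) = v j := by
    refine ⟨fun a => if h : ∃ j ∈ T', y j = a then v h.choose else 0, fun j hj => ?_⟩
    have h : ∃ i ∈ T', y i = y j := ⟨j, hj, rfl⟩
    simp only [dif_pos h]
    rw [hinj _ h.choose_spec.1 j hj h.choose_spec.2]
  have hMeq2 : M = {x | ∀ z ∈ T'.image y, v' z ⬝ᵥ x ≤ v' z ⬝ᵥ toR z} := by
    rw [hMT']
    ext x
    constructor
    · intro hx z hz
      obtain ⟨j, hj, rfl⟩ := Finset.mem_image.1 hz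
      rw [hv' j hj, hy2 j hj]
      exact hx j hj
    · intro hx j hj
      have h1 := hx (y j) (Finset.mem_image_of_mem y hj)
      rw [hv' j hj, hy2 j hj] at h1
      exact h1
  refine ⟨M, T'.image y, v', hKM, hM, hmax, ?_, ?_, hMeq2, ?_⟩
  · intro z hz
    obtain ⟨j, hj, rfl⟩ := Finset.mem_image.1 hz
    rw [hv' j hj]
    exact hne j (hT'T hj)
  · intro z hz
    obtain ⟨j, hj, rfl⟩ := Finset.mem_image.1 hz
    rw [hMT']
    intro i hi
    by_cases hij : i = j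
    · rw [hij, hy2 j hj]
    · exact (hy1 j hj i hi hij).le
  · intro z hz w hw hwz
    obtain ⟨j, hj, rfl⟩ := Finset.mem_image.1 hz
    obtain ⟨i, hi, rfl⟩ := Finset.mem_image.1 hw
    rw [hv' i hi, hy2 i hi]
    exact hy1 j hj i hi fun h => hwz (by rw [h])

end Pool.Agent.Helper1.FX.Max
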