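import Pool.Agent.Helper1.UB.LW

/-! MP_be0fb5, full answer: the fixed point which makes a mixture of balanced chain simplices consistent with the
form (helper15's scheme). General part: Brouwer on a cube. -/

set_option autoImplicit false

namespace Pool.Agent.Helper1.FX

open Matrix Pool.Agent.Helper12.LW

/-- the form of a system of four vectors -/
def gram (v : Fin 4 → Fin 3 → ℝ) : Matrix (Fin 3) (Fin 3) ℝ := Matrix.of fun a b => ∑ k, v k a * v k b

theorem gram_apply (v : Fin 4 → Fin 3 → ℝ) (a b : Fin 3) : gram v a b = ∑ k, v k a * v k b := rfl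

theorem qf_eq (A : Matrix (Fin 3) (Fin 3) ℝ) (x : Fin 3 → ℝ) :
    qf A x = ∑ a, ∑ b, x a * (A a b * x b) := by
  unfold qf
  simp only [dotProduct, mulVec, Finset.mul_sum]

theorem qf_gram (v : Fin 4 → Fin 3 → ℝ) (x : Fin 3 → ℝ) : qf (gram v) x = ∑ k, (v k ⬝ᵥ x) ^ 2 := by
  rw [qf_eq]
  simp only [gram_apply, dotProduct, Fin.sum_univ_three, Fin.sum_univ_four]
  ring

theorem gram_symm (v : Fin 4 → Fin 3 → ℝ) (a b : Fin 3) : gram v a b = gram v b a := by
  simp only [gram_apply, mul_comm]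

theorem qf_add (A B : Matrix (Fin 3) (Fin 3) ℝ) (x : Fin 3 → ℝ) : qf (A + B) x = qf A x + qf B x := by
  unfold qf
  rw [add_mulVec, dotProduct_add]

theorem qf_smul (c : ℝ) (A : Matrix (Fin 3) (Fin 3) ℝ) (x : Fin 3 → ℝ) : qf (c • A) x = c * qf A x := by
  unfold qf
  rw [smul_mulVec, dotProduct_smul, smul_eq_mul]

theorem qf_one (x : Fin 3 → ℝ) : qf 1 x = ∑ a, x a ^ 2 := by
  unfold qf
  rw [one_mulVec]
  simp only [dotProduct, sq]

theorem qf_sum {ι : Type*} (s : Finset ι) (A : ι → Matrix (Fin 3) (Fin 3) ℝ) (x : Fin 3 → ℝ) :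
    qf (∑ i ∈ s, A i) x = ∑ i ∈ s, qf (A i) x := by
  classical
  induction s using Finset.induction_on with
  | empty => simp [qf]
  | insert i s hi ih => rw [Finset.sum_insert hi, Finset.sum_insert hi, qf_add, ih]

/-- symmetric matrices with bounded entries and values at least `ε |x|²` -/
structure InQ (ε C : ℝ) (Q : Matrix (Fin 3) (Fin 3) ℝ) : Prop where
  symm : ∀ a b, Q a b = Q b a
  bd : ∀ a b, |Q a b| ≤ C
  low : ∀ x : Fin 3 → ℝ, ε * ∑ a, x a ^ 2 ≤ qf Q x

theorem InQ.posDef {ε C : ℝ} (hε : 0 < ε) {Q : Matrix (Fin 3) (Fin 3) ℝ} (h : InQ ε C Q) : Q.PosDef := by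
  refine Matrix.PosDef.of_dotProduct_mulVec_pos ?_ ?_
  · ext a b
    simp only [Matrix.conjTranspose_apply, star_trivial]
    exact h.symm b a
  · intro x hx
    have h1 := h.low x
    have h2 : 0 < ∑ a, x a ^ 2 := by
      obtain ⟨a, ha⟩ := Function.ne_iff.1 hx
      refine Finset.sum_pos' (fun a _ => sq_nonneg _) ⟨a, Finset.mem_univ _, ?_⟩
      exact lt_of_le_of_ne (sq_nonneg _) (Ne.symm (pow_ne_zero 2 ha))
    have h3 : 0 < qf Q x := lt_of_lt_of_le (mul_pos hε h2) h1
    simpa [qf] using h3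

/-- **Brouwer on a cube**: a convex combination of the matrices `M i` whose weights are proportional to given
functions of the combination. -/
theorem mix_gen {ι : Type*} [Fintype ι] [Nonempty ι] (M : ι → Matrix (Fin 3) (Fin 3) ℝ) (C0 ε : ℝ)
    (hε : 0 ≤ ε) (hs : ∀ i a b, M i a b = M i b a) (hb : ∀ i a b, |M i a b| ≤ C0)
    (hp : ∀ i x, 0 ≤ qf (M i) x) (w : ι → Matrix (Fin 3) (Fin 3) ℝ → ℝ)
    (hw : ∀ i, ContinuousOn (w i) {Q | InQ ε (ε + C0) Q}) (hw0 : ∀ i Q, InQ ε (ε + C0) Q → 0 ≤ w i Q)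
    (hpos : ∀ Q, InQ ε (ε + C0) Q → 0 < ∑ i, w i Q) :
    ∃ y : ι → ℝ, (∀ i, 0 ≤ y i) ∧ ∑ i, y i = 1 ∧ InQ ε (ε + C0) (ε • 1 + ∑ i, y i • M i) ∧
      ∀ i, w i (ε • 1 + ∑ i, y i • M i) = y i * ∑ j, w j (ε • 1 + ∑ i, y i • M i) := by
  have hC0 : 0 ≤ C0 := (abs_nonneg _).trans (hb (Classical.arbitrary ι) 0 0)
  set Qf : (ι → ℝ) → Matrix (Fin 3) (Fin 3) ℝ := fun y => ε • 1 + ∑ i, (y i / max 1 (∑ j, y j)) • M i
    with hQf
  have hmax : ∀ y : ι → ℝ, 0 < max 1 (∑ j, y j) := fun y => lt_of_lt_of_le one_pos (le_max_left _ _)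
  have hin : ∀ y : ι → ℝ, (∀ i, 0 ≤ y i) → InQ ε (ε + C0) (Qf y) := by
    intro y hy
    have hc0 : ∀ i, 0 ≤ y i / max 1 (∑ j, y j) := fun i => div_nonneg (hy i) (hmax y).le
    have hc1 : ∑ i, y i / max 1 (∑ j, y j) ≤ 1 := by
      rw [← Finset.sum_div, div_le_one (hmax y)]
      exact le_max_right _ _
    have hentry : ∀ a b, Qf y a b = ε * (if a = b then 1 else 0) +
        ∑ i, y i / max 1 (∑ j, y j) * M i a b := by
      intro a b
      simp only [hQf, Matrix.add_apply, Matrix.smul_apply, Matrix.sum_apply, smul_eq_mul, Matrix.one_apply]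
    refine ⟨?_, ?_, ?_⟩
    · intro a b
      rw [hentry, hentry]
      simp only [hs _ a b, eq_comm (a := a)]
    · intro a b
      rw [hentry]
      refine (abs_add_le _ _).trans (add_le_add ?_ ?_)
      · split_ifs
        · rw [mul_one, abs_of_nonneg hε]
        · rw [mul_zero, abs_zero]
          exact hε
      · refine (Finset.abs_sum_le_sum_abs _ _).trans ?_
        calc ∑ i, |y i / max 1 (∑ j, y j) * M i a b| ≤ ∑ i, y i / max 1 (∑ j, y j) * C0 := by
              refine Finset.sum_le_sum (fun i _ => ?_)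
              rw [abs_mul, abs_of_nonneg (hc0 i)]
              exact mul_le_mul_of_nonneg_left (hb i a b) (hc0 i)
          _ = (∑ i, y i / max 1 (∑ j, y j)) * C0 := by rw [Finset.sum_mul]
          _ ≤ 1 * C0 := mul_le_mul_of_nonneg_right hc1 hC0
          _ = C0 := one_mul _
    · intro x
      have h1 : qf (Qf y) x = ε * ∑ a, x a ^ 2 + ∑ i, y i / max 1 (∑ j, y j) * qf (M i) x := by
        rw [hQf]
        simp only
        rw [qf_add, qf_smul, qf_one, qf_sum]
        simp only [qf_smul]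
      rw [h1]
      have h2 : 0 ≤ ∑ i, y i / max 1 (∑ j, y j) * qf (M i) x :=
        Finset.sum_nonneg (fun i _ => mul_nonneg (hc0 i) (hp i x))
      linarith
  have hmc : Continuous fun y : ι → ℝ => max 1 (∑ j, y j) :=
    Continuous.max continuous_const (continuous_finsetSum _ (fun j _ => continuous_apply j))
  have hQc : Continuous Qf := by
    have h1 : ∀ i, Continuous fun y : ι → ℝ => (y i / max 1 (∑ j, y j)) • M i := by
      intro i
      have h2 : Continuous fun y : ι → ℝ => y i / max 1 (∑ j, y j) :=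
        Continuous.div (continuous_apply i) hmc (fun y => (hmax y).ne')
      exact h2.smul continuous_const
    exact continuous_const.add (continuous_finsetSum _ (fun i _ => h1 i))
  have hab : (fun _ : ι => (0 : ℝ)) ≤ (fun _ => 1) := fun _ => zero_le_one
  have hyI : ∀ y : ι → ℝ, y ∈ Set.Icc (fun _ : ι => (0 : ℝ)) (fun _ => 1) → ∀ i, 0 ≤ y i :=
    fun y hy i => hy.1 i
  obtain ⟨y, hy, hfix⟩ := Pool.Agent.Helper52.Brouwer.brouwer_box (fun _ : ι => (0 : ℝ)) (fun _ => 1) hab
    (fun y i => w i (Qf y) / ∑ j, w j (Qf y))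
    (by
      refine continuousOn_pi.2 (fun i => ?_)
      have hc : ∀ i, ContinuousOn (fun y => w i (Qf y)) (Set.Icc (fun _ : ι => (0 : ℝ)) (fun _ => 1)) :=
        fun i => (hw i).comp hQc.continuousOn (fun y hy => hin y (hyI y hy))
      refine (hc i).div (continuousOn_finsetSum _ (fun j _ => hc j)) (fun y hy => ?_)
      exact (hpos _ (hin y (hyI y hy))).ne')
    (by
      intro y hy
      have h0 := hin y (hyI y hy)
      refine ⟨fun i => div_nonneg (hw0 i _ h0) (hpos _ h0).le, fun i => ?_⟩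
      show w i (Qf y) / ∑ j, w j (Qf y) ≤ 1
      rw [div_le_one (hpos _ h0)]
      exact Finset.single_le_sum (f := fun j => w j (Qf y)) (fun j _ => hw0 j _ h0) (Finset.mem_univ i))
  have hy0 := hyI y hy
  have h0 := hin y hy0
  have hS := hpos _ h0
  have hyi : ∀ i, y i = w i (Qf y) / ∑ j, w j (Qf y) := fun i => (congrFun hfix i).symm
  have hsum : ∑ i, y i = 1 := by
    simp only [hyi]
    rw [← Finset.sum_div, div_self hS.ne']
  have hQy : Qf y = ε • 1 + ∑ i, y i • M i := by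
    rw [hQf]
    simp only [hsum, max_self, div_one]
  rw [hQy] at h0 hyi hS
  refine ⟨y, hy0, hsum, h0, fun i => ?_⟩
  conv_rhs => rw [hyi i]
  rw [div_mul_cancel₀ _ hS.ne']

end Pool.Agent.Helper1.FX
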