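import Mathlib
import Pool.Agent.Helper24.MX.Facet
import Pool.Agent.Helper1.FX.MaxR
import Pool.Agent.Helper36.FX.NearW
import Pool.Agent.Helper24.UB.WtLast

/-!
# MP_be0fb5: the simplex of the asymmetry consists of facets with lattice points
-/

set_option autoImplicit false

namespace Pool.Agent.Helper1.FX.Max

open Matrix
open Pool.Agent.Helper12.LW (LFree toR)
open Pool.Agent.Helper24.MX (farkas)
open Pool.Agent.Helper36.FX (NearOpt Cen exists_factor)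

/-- **four facets at the optimal centre** -/
theorem facet_opt (T : Finset (Fin 3 → ℤ)) (v : (Fin 3 → ℤ) → Fin 3 → ℝ) (M : Set (Fin 3 → ℝ))
    (hM : M = {x | ∀ z ∈ T, v z ⬝ᵥ x ≤ v z ⬝ᵥ toR z}) (hv : ∀ z ∈ T, v z ≠ 0) (hc : IsCompact M)
    (hint : (interior M).Nonempty) (s : ℝ) (hs : 2 < s) (c0 : Fin 3 → ℝ)
    (hc0 : ∀ x ∈ M, c0 - (1 / s) • (x - c0) ∈ M)
    (hno : ∀ s' : ℝ, 0 < s' → s' < s → ∀ c : Fin 3 → ℝ, ∃ x ∈ M, c - (1 / s') • (x - c) ∉ M) :
    ∃ (z : Fin 4 → Fin 3 → ℤ) (lam : Fin 4 → ℝ) (p : Fin 4 → Fin 3 → ℝ),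
      Function.Injective z ∧ (∀ k, z k ∈ T) ∧ (∀ k, 0 < lam k) ∧ ∑ k, lam k • v (z k) = 0 ∧
      ∑ k, (lam k • v (z k)) ⬝ᵥ toR (z k) = 1 ∧ (∀ k, p k ∈ M) ∧
      ∀ k, (lam k • v (z k)) ⬝ᵥ (toR (z k) - p k) = (1 + s) * ((lam k • v (z k)) ⬝ᵥ (toR (z k) - c0)) := by
  classical
  have hs0 : 0 < s := by linarith
  obtain ⟨x0, hx0⟩ := hint
  have hx0M : x0 ∈ M := interior_subset hx0
  -- minima
  have hmin : ∀ z : Fin 3 → ℤ, ∃ p ∈ M, ∀ x ∈ M, v z ⬝ᵥ p ≤ v z ⬝ᵥ x := by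
    intro z
    have hcont : ContinuousOn (fun x : Fin 3 → ℝ => v z ⬝ᵥ x) M := by
      apply Continuous.continuousOn
      simp only [dotProduct]
      fun_prop
    obtain ⟨p, hp, h⟩ := hc.exists_isMinOn ⟨x0, hx0M⟩ hcont
    exact ⟨p, hp, fun x hx => h hx⟩
  choose pm hpm hpmin using hmin
  obtain ⟨β, hβ⟩ : ∃ β : (Fin 3 → ℤ) → ℝ, β = fun z => (s * (v z ⬝ᵥ toR z) + v z ⬝ᵥ pm z) / (1 + s) := ⟨_, rfl⟩
  -- strictness at the interior point
  have hstrict : ∀ z ∈ T, v z ⬝ᵥ x0 < v z ⬝ᵥ toR z := by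
    intro z hz
    have hle : ∀ x ∈ M, v z ⬝ᵥ x ≤ v z ⬝ᵥ toR z := by
      intro x hx
      rw [hM] at hx
      exact hx z hz
    rw [mem_interior_iff_mem_nhds, Metric.mem_nhds_iff] at hx0
    obtain ⟨ε, hε, hb⟩ := hx0
    have hvv : 0 < v z ⬝ᵥ v z := by
      have hnn0 : 0 ≤ v z ⬝ᵥ v z := Finset.sum_nonneg fun i _ => mul_self_nonneg (v z i)
      rcases hnn0.eq_or_lt with h | h
      · exact absurd (dotProduct_self_eq_zero.mp h.symm) (hv z hz)
      · exact h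
    obtain ⟨t, ht⟩ : ∃ t : ℝ, t = ε / (2 * (‖v z‖ + 1)) := ⟨_, rfl⟩
    have hn := norm_nonneg (v z)
    have ht0 : 0 < t := by rw [ht]; positivity
    have h1 : x0 + t • v z ∈ M := by
      apply hb
      rw [Metric.mem_ball, dist_eq_norm, add_sub_cancel_left, norm_smul, Real.norm_eq_abs, abs_of_pos ht0, ht,
        div_mul_eq_mul_div, div_lt_iff₀ (by positivity)]
      nlinarith
    have h2 := hle _ h1
    rw [dotProduct_add, dotProduct_smul, smul_eq_mul] at h2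
    have h3 := mul_pos ht0 hvv
    linarith
  -- the open half-spaces have no common point
  have hempty : ¬ (⋂ z ∈ T, {c : Fin 3 → ℝ | v z ⬝ᵥ c < β z}).Nonempty := by
    rintro ⟨c, hcc⟩
    have hev : ∀ᶠ s' in nhdsWithin s (Set.Iio s), ∀ z ∈ T, v z ⬝ᵥ c < (s' * (v z ⬝ᵥ toR z) + v z ⬝ᵥ pm z) / (1 + s') := by
      rw [Filter.eventually_all_finset]
      intro z hz
      have h1 : v z ⬝ᵥ c < β z := by
        have := Set.mem_iInter₂.mp hcc z hz
        exact this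
      rw [hβ] at h1
      have h2 : ContinuousAt (fun s' : ℝ => (s' * (v z ⬝ᵥ toR z) + v z ⬝ᵥ pm z) / (1 + s')) s :=
        ContinuousAt.div (by fun_prop) (by fun_prop) (by linarith)
      exact (h2.tendsto.mono_left nhdsWithin_le_nhds).eventually (lt_mem_nhds h1)
    have hev2 : ∀ᶠ s' in nhdsWithin s (Set.Iio s), 0 < s' :=
      (lt_mem_nhds hs0).filter_mono nhdsWithin_le_nhds
    obtain ⟨s', ⟨h5, hs'0⟩, hs's⟩ := ((hev.and hev2).and self_mem_nhdsWithin).exists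
    obtain ⟨x, hx, hnx⟩ := hno s' hs'0 hs's c
    apply hnx
    rw [hM]
    intro z hz
    have h1 := h5 z hz
    have h2 := hpmin z x hx
    rw [lt_div_iff₀ (by linarith)] at h1
    rw [dotProduct_sub, dotProduct_smul, dotProduct_sub, smul_eq_mul]
    have h3 : s' * (v z ⬝ᵥ c - 1 / s' * (v z ⬝ᵥ x - v z ⬝ᵥ c)) ≤ s' * (v z ⬝ᵥ toR z) := by
      have h4 : s' * (v z ⬝ᵥ c - 1 / s' * (v z ⬝ᵥ x - v z ⬝ᵥ c)) =
          s' * (v z ⬝ᵥ c) - (v z ⬝ᵥ x - v z ⬝ᵥ c) := by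
        field_simp
      rw [h4]
      linarith
    exact le_of_mul_le_mul_left h3 hs'0
  -- Helly
  have hex : ∃ I ⊆ T, I.card ≤ 4 ∧ ¬ (⋂ z ∈ I, {c : Fin 3 → ℝ | v z ⬝ᵥ c < β z}).Nonempty := by
    by_contra hcon
    push Not at hcon
    apply hempty
    apply Convex.helly_theorem' (𝕜 := ℝ)
    · intro z _ x hx y hy a b ha hb hab
      simp only [Set.mem_ofPred_eq, dotProduct_add, dotProduct_smul, smul_eq_mul] at hx hy ⊢
      rcases ha.eq_or_lt with h0 | h0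
      · rw [← h0] at hab ⊢
        have : b = 1 := by linarith
        rw [this]
        linarith
      · have h3 := mul_lt_mul_of_pos_left hx h0
        have h4 := mul_le_mul_of_nonneg_left hy.le hb
        have h5 : a * β z + b * β z = β z := by rw [← add_mul, hab, one_mul]
        linarith
    · intro I hI hcard
      have : Module.finrank ℝ (Fin 3 → ℝ) = 3 := by simp
      rw [this] at hcard
      exact hcon I hI hcard
  obtain ⟨I, hIT, hI4, hIe⟩ := hex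
  have hinf : ∀ c : Fin 3 → ℝ, ∃ j : {z // z ∈ I}, β j.1 ≤ v j.1 ⬝ᵥ c := by
    intro c
    by_contra hcon
    push Not at hcon
    apply hIe
    refine ⟨c, Set.mem_iInter₂.mpr fun z hz => ?_⟩
    exact hcon ⟨z, hz⟩
  obtain ⟨lam, hnn, ⟨j0, hj0⟩, hzero, hbeta⟩ := farkas (fun j : {z // z ∈ I} => v j.1) (fun j => β j.1) hinf
  have hmemT : ∀ j : {z // z ∈ I}, j.1 ∈ T := fun j => hIT j.2
  -- the sum of the gaps is constant
  have hdot0 : ∀ x : Fin 3 → ℝ, ∑ j, lam j * (v j.1 ⬝ᵥ x) = 0 := by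
    intro x
    have h1 : (∑ j, lam j • v j.1) ⬝ᵥ x = 0 := by rw [hzero, zero_dotProduct]
    rw [sum_dotProduct] at h1
    simpa [smul_dotProduct] using h1
  obtain ⟨B, hB⟩ : ∃ B : ℝ, B = ∑ j, lam j * (v j.1 ⬝ᵥ toR j.1) := ⟨_, rfl⟩
  have hgap : ∀ x : Fin 3 → ℝ, ∑ j, lam j * (v j.1 ⬝ᵥ toR j.1 - v j.1 ⬝ᵥ x) = B := by
    intro x
    simp only [mul_sub]
    rw [Finset.sum_sub_distrib, hdot0 x, hB, sub_zero]
  have hB0 : 0 < B := by
    rw [← hgap x0]
    refine Finset.sum_pos' (fun j _ => mul_nonneg (hnn j) (by linarith [hstrict j.1 (hmemT j)])) ⟨j0, Finset.mem_univ _, ?_⟩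
    exact mul_pos hj0 (by linarith [hstrict j0.1 (hmemT j0)])
  have hsumge : (1 + s) * B ≤ ∑ j, lam j * (v j.1 ⬝ᵥ toR j.1 - v j.1 ⬝ᵥ pm j.1) := by
    have h1 : ∑ j, lam j * (s * (v j.1 ⬝ᵥ toR j.1) + v j.1 ⬝ᵥ pm j.1) ≤ 0 := by
      have h2 : ∑ j, lam j * (s * (v j.1 ⬝ᵥ toR j.1) + v j.1 ⬝ᵥ pm j.1) =
          (1 + s) * ∑ j, lam j * β j.1 := by
        rw [Finset.mul_sum, hβ]
        refine Finset.sum_congr rfl fun j _ => ?_
        have : (1 + s) ≠ 0 := by linarith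
        field_simp
      rw [h2]
      exact mul_nonpos_of_nonneg_of_nonpos (by linarith) hbeta
    have h3 : ∑ j, lam j * (s * (v j.1 ⬝ᵥ toR j.1) + v j.1 ⬝ᵥ pm j.1) =
        (1 + s) * B - ∑ j, lam j * (v j.1 ⬝ᵥ toR j.1 - v j.1 ⬝ᵥ pm j.1) := by
      rw [hB, Finset.mul_sum, ← Finset.sum_sub_distrib]
      exact Finset.sum_congr rfl fun j _ => by ring
    linarith
  have hone : ∀ j : {z // z ∈ I}, lam j * (v j.1 ⬝ᵥ toR j.1 - v j.1 ⬝ᵥ pm j.1) ≤ B := by
    intro j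
    rw [← hgap (pm j.1)]
    refine Finset.single_le_sum (f := fun i : {z // z ∈ I} => lam i * (v i.1 ⬝ᵥ toR i.1 - v i.1 ⬝ᵥ pm j.1))
      (fun i _ => mul_nonneg (hnn i) ?_) (Finset.mem_univ j)
    have h1 := hpm j.1
    rw [hM] at h1
    have := h1 i.1 (hmemT i)
    linarith
  -- four facets, all with positive weight
  have hcard4 : Fintype.card {z // z ∈ I} = 4 := by
    rw [Fintype.card_coe]
    have h1 : ∑ j : {z // z ∈ I}, lam j * (v j.1 ⬝ᵥ toR j.1 - v j.1 ⬝ᵥ pm j.1) ≤ (I.card : ℝ) * B := by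
      refine (Finset.sum_le_sum fun j _ => hone j).trans (le_of_eq ?_)
      rw [Finset.sum_const, Finset.card_univ, Fintype.card_coe, nsmul_eq_mul]
    have h2 : (1 + s) * B ≤ (I.card : ℝ) * B := hsumge.trans h1
    have h3 : 1 + s ≤ (I.card : ℝ) := le_of_mul_le_mul_right h2 hB0
    have h4 : (3 : ℝ) < (I.card : ℝ) := by linarith
    have h5 : 3 < I.card := by exact_mod_cast h4
    omega
  have hpos : ∀ j : {z // z ∈ I}, 0 < lam j := by
    intro j
    by_contra hcon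
    have hj : lam j = 0 := le_antisymm (not_lt.mp hcon) (hnn j)
    have h1 : ∑ i : {z // z ∈ I}, lam i * (v i.1 ⬝ᵥ toR i.1 - v i.1 ⬝ᵥ pm i.1) ≤ 3 * B := by
      rw [← Finset.add_sum_erase Finset.univ _ (Finset.mem_univ j), hj, zero_mul, zero_add]
      refine (Finset.sum_le_sum fun i _ => hone i).trans (le_of_eq ?_)
      rw [Finset.sum_const, Finset.card_erase_of_mem (Finset.mem_univ j), Finset.card_univ, hcard4, nsmul_eq_mul]
      norm_num
    have h2 : (1 + s) * B ≤ 3 * B := hsumge.trans h1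
    have h3 : 1 + s ≤ 3 := le_of_mul_le_mul_right h2 hB0
    linarith
  obtain ⟨e⟩ : Nonempty (Fin 4 ≃ {z // z ∈ I}) := ⟨(Fintype.equivFinOfCardEq hcard4).symm⟩
  have hz1 : ∑ k, (lam (e k) / B) • v (e k).1 = 0 := by
    have h1 : ∑ k, (lam (e k) / B) • v (e k).1 = (1 / B) • ∑ j, lam j • v j.1 := by
      rw [Finset.smul_sum, ← Equiv.sum_comp e]
      refine Finset.sum_congr rfl fun k _ => ?_
      rw [smul_smul]
      congr 1
      ring
    rw [h1, hzero, smul_zero]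
  have hz2 : ∑ k, ((lam (e k) / B) • v (e k).1) ⬝ᵥ toR (e k).1 = 1 := by
    have h1 : ∑ k, ((lam (e k) / B) • v (e k).1) ⬝ᵥ toR (e k).1 = (1 / B) * ∑ j, lam j * (v j.1 ⬝ᵥ toR j.1) := by
      rw [Finset.mul_sum, ← Equiv.sum_comp e]
      refine Finset.sum_congr rfl fun k _ => ?_
      rw [smul_dotProduct, smul_eq_mul]
      ring
    rw [h1, ← hB]
    field_simp
  have hz3 : 1 + s ≤ ∑ k, ((lam (e k) / B) • v (e k).1) ⬝ᵥ (toR (e k).1 - pm (e k).1) := by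
    have h1 : ∑ k, ((lam (e k) / B) • v (e k).1) ⬝ᵥ (toR (e k).1 - pm (e k).1) =
        (1 / B) * ∑ j, lam j * (v j.1 ⬝ᵥ toR j.1 - v j.1 ⬝ᵥ pm j.1) := by
      rw [Finset.mul_sum, ← Equiv.sum_comp e]
      refine Finset.sum_congr rfl fun k _ => ?_
      rw [smul_dotProduct, smul_eq_mul, dotProduct_sub]
      ring
    rw [h1]
    have h2 := mul_le_mul_of_nonneg_left hsumge (by positivity : (0 : ℝ) ≤ 1 / B)
    have h3 : (1 / B) * ((1 + s) * B) = 1 + s := by field_simp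
    linarith
  have hlampos : ∀ k, 0 < lam (e k) / B := fun k => div_pos (hpos _) hB0
  -- every term is at most its share
  have hterm : ∀ k, ((lam (e k) / B) • v (e k).1) ⬝ᵥ (toR (e k).1 - pm (e k).1) ≤
      (1 + s) * (((lam (e k) / B) • v (e k).1) ⬝ᵥ (toR (e k).1 - c0)) := by
    intro k
    have h1 := hc0 _ (hpm (e k).1)
    rw [hM] at h1
    have h2 := h1 (e k).1 (hmemT (e k))
    rw [dotProduct_sub, dotProduct_smul, dotProduct_sub, smul_eq_mul] at h2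
    have h3 := mul_le_mul_of_nonneg_left h2 hs0.le
    have h4 : s * (v (e k).1 ⬝ᵥ c0 - 1 / s * (v (e k).1 ⬝ᵥ pm (e k).1 - v (e k).1 ⬝ᵥ c0)) =
        s * (v (e k).1 ⬝ᵥ c0) - (v (e k).1 ⬝ᵥ pm (e k).1 - v (e k).1 ⬝ᵥ c0) := by
      field_simp
    rw [h4] at h3
    rw [smul_dotProduct, smul_dotProduct, smul_eq_mul, smul_eq_mul, dotProduct_sub, dotProduct_sub]
    have h5 : v (e k).1 ⬝ᵥ toR (e k).1 - v (e k).1 ⬝ᵥ pm (e k).1 ≤
        (1 + s) * (v (e k).1 ⬝ᵥ toR (e k).1 - v (e k).1 ⬝ᵥ c0) := by linarith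
    have h6 := mul_le_mul_of_nonneg_left h5 (hlampos k).le
    linarith
  have hsumc : ∑ k, (1 + s) * (((lam (e k) / B) • v (e k).1) ⬝ᵥ (toR (e k).1 - c0)) = 1 + s := by
    rw [← Finset.mul_sum]
    have h1 : ∑ k, ((lam (e k) / B) • v (e k).1) ⬝ᵥ (toR (e k).1 - c0) = 1 := by
      simp only [dotProduct_sub]
      rw [Finset.sum_sub_distrib, hz2, ← sum_dotProduct, hz1, zero_dotProduct, sub_zero]
    rw [h1, mul_one]
  have hall : ∀ k, ((lam (e k) / B) • v (e k).1) ⬝ᵥ (toR (e k).1 - pm (e k).1) =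
      (1 + s) * (((lam (e k) / B) • v (e k).1) ⬝ᵥ (toR (e k).1 - c0)) := by
    intro k
    have h1 := (Finset.sum_eq_sum_iff_of_le fun k (_ : k ∈ Finset.univ) => hterm k).1
      (le_antisymm (Finset.sum_le_sum fun k _ => hterm k) (by rw [hsumc]; exact hz3))
    exact h1 k (Finset.mem_univ k)
  exact ⟨fun k => (e k).1, fun k => lam (e k) / B, fun k => pm (e k).1,
    fun a b hab => e.injective (Subtype.ext hab), fun k => hmemT (e k), hlampos, hz1, hz2, fun k => hpm _, hall⟩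

/-- **The facet simplex.** A wide lattice-free body lies in a maximal lattice-free polytope `M` (facets `v z`, `z ∈ T`,
with the lattice point `z ∈ M` in the relative interior of its facet) whose asymmetry simplex consists of the four
facets `w k = lam k • v (z k)`. -/
structure FacetOpt (M : Set (Fin 3 → ℝ)) (T : Finset (Fin 3 → ℤ)) (v : (Fin 3 → ℤ) → Fin 3 → ℝ) (s : ℝ)
    (c : Fin 3 → ℝ) (z : Fin 4 → Fin 3 → ℤ) (lam : Fin 4 → ℝ) (p : Fin 4 → Fin 3 → ℝ) : Prop where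
  free : LFree M
  max : Maximal Fr M
  wide : ¬ Pool.Agent.Helper84.FL.WidthLe M (2 + Real.sqrt 2)
  ne : ∀ z ∈ T, v z ≠ 0
  memT : ∀ z ∈ T, toR z ∈ M
  eq : M = {x | ∀ z ∈ T, v z ⬝ᵥ x ≤ v z ⬝ᵥ toR z}
  rel : ∀ z ∈ T, ∀ w ∈ T, w ≠ z → v w ⬝ᵥ toR z < v w ⬝ᵥ toR w
  asym : 266 / 100 < s
  inj : Function.Injective z
  zT : ∀ k, z k ∈ T
  pos : ∀ k, 0 < lam k
  near : NearOpt M s c (fun k => lam k • v (z k)) (fun k => (lam k • v (z k)) ⬝ᵥ toR (z k)) p

namespace FacetOpt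

variable {M : Set (Fin 3 → ℝ)} {T : Finset (Fin 3 → ℤ)} {v : (Fin 3 → ℤ) → Fin 3 → ℝ} {s : ℝ} {c : Fin 3 → ℝ}
  {z : Fin 4 → Fin 3 → ℤ} {lam : Fin 4 → ℝ} {p : Fin 4 → Fin 3 → ℝ}

/-- the contact points are in the body -/
theorem zM (h : FacetOpt M T v s c z lam p) (k : Fin 4) : toR (z k) ∈ M := h.memT _ (h.zT k)

/-- the coordinates of the facet simplex -/
noncomputable def L (v : (Fin 3 → ℤ) → Fin 3 → ℝ) (z : Fin 4 → Fin 3 → ℤ) (lam : Fin 4 → ℝ) (k : Fin 4)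
    (x : Fin 3 → ℝ) : ℝ := (lam k • v (z k)) ⬝ᵥ toR (z k) - (lam k • v (z k)) ⬝ᵥ x

theorem L_eq (v : (Fin 3 → ℤ) → Fin 3 → ℝ) (z : Fin 4 → Fin 3 → ℤ) (lam : Fin 4 → ℝ) (k : Fin 4) (x : Fin 3 → ℝ) :
    L v z lam k x = lam k * (v (z k) ⬝ᵥ toR (z k) - v (z k) ⬝ᵥ x) := by
  rw [L, smul_dotProduct, smul_dotProduct, smul_eq_mul, smul_eq_mul]
  ring

theorem sum_L (h : FacetOpt M T v s c z lam p) (x : Fin 3 → ℝ) : ∑ k, L v z lam k x = 1 := h.near.sum_L x

theorem L_nonneg (h : FacetOpt M T v s c z lam p) (k : Fin 4) {x : Fin 3 → ℝ} (hx : x ∈ M) : 0 ≤ L v z lam k x :=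
  h.near.L_nonneg k hx

theorem L_self (k : Fin 4) : L v z lam k (toR (z k)) = 0 := sub_self _

/-- (R): the contact points are in the relative interiors of their facets -/
theorem L_pos (h : FacetOpt M T v s c z lam p) (i k : Fin 4) (hik : i ≠ k) : 0 < L v z lam i (toR (z k)) := by
  rw [L_eq]
  exact mul_pos (h.pos i) (sub_pos.2 (h.rel _ (h.zT k) _ (h.zT i) fun he => hik (h.inj he)))

/-- normal form of a facet: `M ⊆ {c · L ≤ h}` with `0 ≤ c ≤ 1`, both values attained, `h = c · L w`. -/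
theorem normal_form (h : FacetOpt M T v s c z lam p) (u : Fin 3 → ℝ) (hu : u ≠ 0) :
    ∃ (a : Fin 4 → ℝ) (μ : ℝ), 0 < μ ∧ (∀ k, 0 ≤ a k) ∧ (∀ k, a k ≤ 1) ∧ (∃ k, a k = 0) ∧ (∃ k, a k = 1) ∧
      ∀ x y, ∑ k, a k * L v z lam k x - ∑ k, a k * L v z lam k y = μ * (u ⬝ᵥ x - u ⬝ᵥ y) := by
  obtain ⟨g, hg⟩ : ∃ g : Fin 4 → Fin 3 → ℝ, g = fun k => lam k • v (z k) := ⟨_, rfl⟩
  have hsum : ∑ k, g k = 0 := by rw [hg]; exact h.near.sum_v
  have hspan : ∀ d : Fin 3 → ℝ, (∀ k, g k ⬝ᵥ d = 0) → d = 0 := by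
    intro d hd
    refine h.near.span (by linarith [h.asym]) d fun k => ?_
    have := hd k
    rw [hg] at this
    exact this
  -- `g 0, g 1, g 2` is a basis
  have hinj : Function.Injective (Matrix.mulVec (Matrix.of fun i : Fin 3 => g i.castSucc)) := by
    intro x y hxy
    rw [← sub_eq_zero]
    apply hspan
    have h1 : ∀ i : Fin 3, g i.castSucc ⬝ᵥ (x - y) = 0 := by
      intro i
      have h2 := congrFun hxy i
      simp only [Matrix.mulVec, Matrix.of_apply] at h2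
      rw [dotProduct_sub, h2, sub_self]
    intro k
    induction k using Fin.lastCases with
    | last =>
      have h2 : (∑ k, g k) ⬝ᵥ (x - y) = 0 := by rw [hsum, zero_dotProduct]
      rw [Fin.sum_univ_castSucc, add_dotProduct, sum_dotProduct, Finset.sum_eq_zero fun i _ => h1 i, zero_add] at h2
      exact h2
    | cast i => exact h1 i
  have hunit : IsUnit (Matrix.of fun i : Fin 3 => g i.castSucc) := Matrix.mulVec_injective_iff_isUnit.1 hinj
  obtain ⟨r, hr⟩ := (Matrix.vecMul_surjective_iff_isUnit.2 hunit) u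
  obtain ⟨r', hr'⟩ : ∃ r' : Fin 4 → ℝ, r' = Fin.snoc (α := fun _ => ℝ) r 0 := ⟨_, rfl⟩
  have hcomb : ∑ k, r' k • g k = u := by
    rw [Fin.sum_univ_castSucc, hr', ← hr]
    simp only [Fin.snoc_castSucc, Fin.snoc_last, zero_smul, add_zero]
    ext j
    simp only [Matrix.vecMul, dotProduct, Matrix.of_apply, Finset.sum_apply, Pi.smul_apply, smul_eq_mul]
  obtain ⟨t, -, ht⟩ := Finset.exists_max_image Finset.univ r' ⟨0, Finset.mem_univ _⟩
  obtain ⟨q, -, hq⟩ := Finset.exists_min_image Finset.univ r' ⟨0, Finset.mem_univ _⟩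
  have hlt : r' q < r' t := by
    refine lt_of_le_of_ne (hq t (Finset.mem_univ t)) fun he => hu ?_
    have h1 : ∀ k, r' k = r' t := fun k =>
      le_antisymm (ht k (Finset.mem_univ k)) (he ▸ hq k (Finset.mem_univ k))
    rw [← hcomb]
    simp only [h1]
    rw [← Finset.smul_sum, hsum, smul_zero]
  have hden : 0 < r' t - r' q := by linarith
  refine ⟨fun k => (r' t - r' k) / (r' t - r' q), 1 / (r' t - r' q), by positivity, fun k => ?_, fun k => ?_, ⟨t, ?_⟩,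
    ⟨q, ?_⟩, fun x y => ?_⟩
  · exact div_nonneg (by linarith [ht k (Finset.mem_univ k)]) hden.le
  · rw [div_le_one hden]
    linarith [hq k (Finset.mem_univ k)]
  · simp
  · exact div_self hden.ne'
  · have h1 : ∀ x, ∑ k, (r' t - r' k) / (r' t - r' q) * L v z lam k x =
        (r' t * 1 - ∑ k, r' k * L v z lam k x) / (r' t - r' q) := by
      intro x
      rw [← h.sum_L x, Finset.mul_sum, ← Finset.sum_sub_distrib, Finset.sum_div]
      exact Finset.sum_congr rfl fun k _ => by ring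
    have h2 : ∀ x, ∑ k, r' k * L v z lam k x = (∑ k, r' k * ((g k) ⬝ᵥ toR (z k))) - u ⬝ᵥ x := by
      intro x
      rw [← hcomb, sum_dotProduct, ← Finset.sum_sub_distrib]
      refine Finset.sum_congr rfl fun k _ => ?_
      have h3 : (r' k • g k) ⬝ᵥ x = r' k * (g k ⬝ᵥ x) := by rw [smul_dotProduct, smul_eq_mul]
      rw [h3, L, hg]
      ring
    rw [h1, h1, h2, h2]
    field_simp
    ring

/-- an inner lattice point of the facet simplex is beyond another facet -/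
theorem exists_facet (h : FacetOpt M T v s c z lam p) (x : Fin 3 → ℤ) :
    ∃ w ∈ T, v w ⬝ᵥ toR w ≤ v w ⬝ᵥ toR x := by
  by_contra hcon
  push Not at hcon
  refine h.free.free x (mem_interior_of_lt T v (fun w => v w ⬝ᵥ toR w) (fun y hy => ?_) (toR x) hcon)
  rw [h.eq]
  exact hy

end FacetOpt

theorem exists_facetOpt {K : Set (Fin 3 → ℝ)} (hK : LFree K)
    (hw : ¬ Pool.Agent.Helper84.FL.WidthLe K (2 + Real.sqrt 2)) :
    ∃ M T v s c z lam p, K ⊆ M ∧ FacetOpt M T v s c z lam p := by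
  obtain ⟨M, T, v, hKM, hM, hmax, hne, hmemT, hMeq, hrel⟩ := exists_maxR hK hw
  have hwM : ¬ Pool.Agent.Helper84.FL.WidthLe M (2 + Real.sqrt 2) := by
    rintro ⟨y, hy, h⟩
    exact hw ⟨y, hy, fun x hx x' hx' => h x (hKM hx) x' (hKM hx')⟩
  obtain ⟨t, c, ht0, ht1, hcen, hopt⟩ := exists_factor hM.compact hM.convex hM.interior_nonempty
  obtain ⟨s, hs⟩ : ∃ s : ℝ, s = 1 / t := ⟨_, rfl⟩
  have hs1 : 1 ≤ s := by rw [hs, le_div_iff₀ ht0]; linarith
  have hst : 1 / s = t := by rw [hs, one_div_one_div]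
  have hcen' : ∀ x ∈ M, c - (1 / s) • (x - c) ∈ M := by rw [hst]; exact hcen
  have hasym : 266 / 100 < s := by
    by_contra hcon
    push Not at hcon
    exact hwM (Pool.Agent.Helper24.UB.asym266 M hM.compact hM.convex hM.interior_nonempty hM.free c s hs1 hcon hcen')
  have hno : ∀ s' : ℝ, 0 < s' → s' < s → ∀ c : Fin 3 → ℝ, ∃ x ∈ M, c - (1 / s') • (x - c) ∉ M := by
    intro s' hs'0 hs's c'
    by_contra hcon
    push Not at hcon
    refine hopt (1 / s') ?_ ⟨c', hcon⟩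
    rw [← hst]
    exact one_div_lt_one_div_of_lt hs'0 hs's
  obtain ⟨z, lam, p, hinj, hzT, hpos, hsum, hone, hpM, hval⟩ :=
    facet_opt T v M hMeq hne hM.compact hM.interior_nonempty s (by linarith) c hcen' hno
  refine ⟨M, T, v, s, c, z, lam, p, hKM, ⟨hM, hmax, hwM, hne, hmemT, hMeq, hrel, hasym, hinj, hzT, hpos, ?_⟩⟩
  refine ⟨hs1, hsum, hone, ?_, hcen.mem hM.convex (hM.interior_nonempty.mono interior_subset) ht0.le, hcen', hpM, ?_⟩
  · intro k x hx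
    simp only [smul_dotProduct, smul_eq_mul]
    rw [hMeq] at hx
    exact mul_le_mul_of_nonneg_left (hx _ (hzT k)) (hpos k).le
  · intro k
    have h1 := hval k
    simp only [dotProduct_sub] at h1
    exact h1

end Pool.Agent.Helper1.FX.Max

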