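import Pool.Agent.Helper1.FX.Ellip

/-! MP_be0fb5, full answer: representatives of superbases modulo sign and permutation, and the standard rule for the
weights of the near minimal superbases. -/

set_option autoImplicit false

namespace Pool.Agent.Helper1.FX

open Matrix Pool.Agent.Helper12.LW
open Pool.Agent.Helper84.FL (Superbase pz pr)

/-- equality up to sign and permutation -/
def Eqv (f g : Fin 4 → Fin 3 → ℤ) : Prop :=
  ∃ π : Equiv.Perm (Fin 4), (∀ l, g l = f (π l)) ∨ (∀ l, g l = -f (π l))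

theorem Eqv.refl (f : Fin 4 → Fin 3 → ℤ) : Eqv f f := ⟨1, Or.inl (fun _ => rfl)⟩

theorem Eqv.symm {f g : Fin 4 → Fin 3 → ℤ} (h : Eqv f g) : Eqv g f := by
  obtain ⟨π, h | h⟩ := h
  · exact ⟨π⁻¹, Or.inl (fun l => by rw [h]; simp)⟩
  · exact ⟨π⁻¹, Or.inr (fun l => by rw [h]; simp)⟩

theorem Eqv.trans {f g k : Fin 4 → Fin 3 → ℤ} (h : Eqv f g) (h' : Eqv g k) : Eqv f k := by
  obtain ⟨π, h | h⟩ := h <;> obtain ⟨π', h' | h'⟩ := h'
  · exact ⟨π * π', Or.inl (fun l => by rw [h', h]; rfl)⟩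
  · exact ⟨π * π', Or.inr (fun l => by rw [h', h]; rfl)⟩
  · exact ⟨π * π', Or.inr (fun l => by rw [h', h]; rfl)⟩
  · exact ⟨π * π', Or.inl (fun l => by rw [h', h, neg_neg]; rfl)⟩

/-- the setoid -/
def sbSetoid : Setoid (Fin 4 → Fin 3 → ℤ) := ⟨Eqv, Eqv.refl, Eqv.symm, Eqv.trans⟩

/-- the representative of a class -/
noncomputable def rep (f : Fin 4 → Fin 3 → ℤ) : Fin 4 → Fin 3 → ℤ := (Quotient.mk sbSetoid f).out

theorem rep_eqv (f : Fin 4 → Fin 3 → ℤ) : Eqv (rep f) f :=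
  Quotient.exact (Quotient.out_eq (Quotient.mk sbSetoid f))

theorem rep_eq {f g : Fin 4 → Fin 3 → ℤ} (h : Eqv f g) : rep f = rep g := by
  unfold rep
  congr 1
  exact Quotient.sound h

theorem rep_rep (f : Fin 4 → Fin 3 → ℤ) : rep (rep f) = rep f := rep_eq (rep_eqv f)

theorem Eqv.superbase {f g : Fin 4 → Fin 3 → ℤ} (h : Eqv f g) (hf : Superbase f) : Superbase g := by
  obtain ⟨π, h⟩ := h
  rcases h with h | h
  · have h1 := Pool.Agent.Helper73.FX.superbase_perm hf π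
    have h2 : g = fun i => f (π i) := funext h
    rw [h2]
    exact h1
  · have h1 := Pool.Agent.Helper73.FX.superbase_perm hf π
    refine ⟨?_, fun z => ?_⟩
    · simp only [h]
      rw [Finset.sum_neg_distrib, h1.sum, neg_zero]
    · obtain ⟨a, ha⟩ := h1.span z
      refine ⟨fun l => -a l, ?_⟩
      rw [ha]
      refine Finset.sum_congr rfl (fun l _ => ?_)
      rw [h l, neg_smul_neg]

theorem Eqv.PP_eq {f g : Fin 4 → Fin 3 → ℤ} (h : Eqv f g) (Q : Matrix (Fin 3) (Fin 3) ℝ) :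
    PP Q g = PP Q f := by
  obtain ⟨π, h⟩ := h
  unfold PP
  congr 1
  have h1 : ∀ l, qf Q (toR (g l)) = qf Q (toR (f (π l))) := by
    intro l
    rcases h with h | h
    · rw [h l]
    · rw [h l]
      have e : toR (-f (π l)) = -toR (f (π l)) := by
        funext a
        simp [toR]
      rw [e]
      unfold qf
      rw [mulVec_neg, neg_dotProduct, dotProduct_neg, neg_neg]
  simp only [h1]
  exact Equiv.sum_comp π (fun l => qf Q (toR (f l)))

open Classical in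
/-- the standard rule -/
noncomputable def wst (δ : ℝ) (f : Fin 4 → Fin 3 → ℤ) (Q : Matrix (Fin 3) (Fin 3) ℝ) : ℝ :=
  if rep f = f ∧ Superbase f then max 0 ((1 + δ) * Pst Q - PP Q f) else 0

theorem wst_rule (δ : ℝ) (hδ : 0 < δ) : Rule (1 + δ) (wst δ) where
  nonneg := by
    intro f Q
    unfold wst
    split_ifs
    · exact le_max_left _ _
    · exact le_rfl
  cont := by
    intro f ε C hε
    unfold wst
    split_ifs
    · exact ContinuousOn.sup continuousOn_const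
        ((continuousOn_const.mul (Pst_cont hε)).sub (PP_cont f).continuousOn)
    · exact continuousOn_const
  near := by
    intro f Q ε C hε hQ hw
    unfold wst at hw
    split_ifs at hw with h
    · refine ⟨h.2, ?_⟩
      rcases lt_max_iff.1 hw with h1 | h1
      · exact absurd h1 (lt_irrefl _)
      · linarith
    · exact absurd hw (lt_irrefl _)
  pos := by
    intro Q ε C hε hQ
    obtain ⟨f, hf, he⟩ := Pst_exists hε hQ
    refine ⟨rep f, ?_⟩
    unfold wst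
    rw [if_pos ⟨rep_rep f, (rep_eqv f).symm.superbase hf⟩]
    apply lt_max_of_lt_right
    have h1 : PP Q (rep f) = PP Q f := (rep_eqv f).symm.PP_eq Q
    rw [h1, he]
    have := Pst_pos hε hQ
    nlinarith

/-- the squared diameter -/
theorem diam_bound (K : Set (Fin 3 → ℝ)) (hK : Bornology.IsBounded K) : ∃ D : ℝ, 0 ≤ D ∧
    ∀ x ∈ K, ∀ x' ∈ K, ∑ a, (x - x') a ^ 2 ≤ D := by
  obtain ⟨B, hB⟩ := hK.exists_norm_le
  have hb : ∀ x ∈ K, ∀ a, |x a| ≤ |B| := by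
    intro x hx a
    have h1 := norm_le_pi_norm x a
    rw [Real.norm_eq_abs] at h1
    exact (h1.trans (hB x hx)).trans (le_abs_self _)
  refine ⟨3 * (2 * |B|) ^ 2, by positivity, fun x hx x' hx' => ?_⟩
  have h1 : ∀ a, (x - x') a ^ 2 ≤ (2 * |B|) ^ 2 := by
    intro a
    rw [← sq_abs]
    refine pow_le_pow_left₀ (abs_nonneg _) ?_ 2
    have h2 : |(x - x') a| ≤ |x a| + |x' a| := abs_sub _ _
    linarith [hb x hx a, hb x' hx' a]
  have h2 : ∑ a, (x - x') a ^ 2 ≤ ∑ _a : Fin 3, (2 * |B|) ^ 2 := Finset.sum_le_sum (fun a _ => h1 a)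
  rw [Finset.sum_const, Finset.card_univ, Fintype.card_fin, nsmul_eq_mul] at h2
  push_cast at h2
  exact h2

/-- **the width inequality**: the inverse of a mixture of forms of balanced chain simplices is large on the nonzero
integer vectors -/
theorem inv_large (K : Set (Fin 3 → ℝ)) (D : ℝ) (hD : ∀ x ∈ K, ∀ x' ∈ K, ∑ a, (x - x') a ^ 2 ≤ D)
    (W : ℝ) (hW0 : 0 ≤ W) (hwide : ∀ u : Fin 3 → ℤ, u ≠ 0 → ∃ x ∈ K, ∃ x' ∈ K, W ≤ toR u ⬝ᵥ (x - x'))
    {ε C : ℝ} (hε : 0 < ε) {Q : Matrix (Fin 3) (Fin 3) ℝ} (hQ : InQ ε C Q) (e : ℝ)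
    (he : 0 ≤ e) (F : Finset (Fin 4 → Fin 3 → ℤ)) (y : (Fin 4 → Fin 3 → ℤ) → ℝ) (hy0 : ∀ f, 0 ≤ y f)
    (hy1 : ∑ f ∈ F, y f = 1) (V : (Fin 4 → Fin 3 → ℤ) → Fin 4 → Fin 3 → ℝ)
    (hV : ∀ f ∈ F, ∃ P : Fin 4 → Fin 3 → ℤ, Sep4 K P (V f))
    (hQe : Q = e • 1 + ∑ f ∈ F, y f • gram (V f)) (u : Fin 3 → ℤ) (hu : u ≠ 0) :
    W ^ 2 ≤ (2 + e * D) * qf Q⁻¹ (toR u) := by
  obtain ⟨x, hx, x', hx', hw⟩ := hwide u hu
  have hPD := hQ.posDef hε
  have h1 := cs_inv hPD (toR u) (x - x')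
  have h2 : qf Q (x - x') ≤ 2 + e * D := by
    rw [hQe, qf_add, qf_smul, qf_one, qf_sum]
    have h3 : ∑ f ∈ F, qf (y f • gram (V f)) (x - x') ≤ ∑ f ∈ F, y f * 2 := by
      refine Finset.sum_le_sum (fun f hf => ?_)
      rw [qf_smul]
      obtain ⟨P, hP⟩ := hV f hf
      exact mul_le_mul_of_nonneg_left (gram_le_two hP hx hx') (hy0 f)
    rw [← Finset.sum_mul, hy1, one_mul] at h3
    have h4 := mul_le_mul_of_nonneg_left (hD x hx x' hx') he
    linarith
  have h5 : 0 ≤ qf Q⁻¹ (toR u) := by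
    have := hPD.inv.posSemidef.dotProduct_mulVec_nonneg (toR u)
    simpa [qf] using this
  have h6 : W ^ 2 ≤ (toR u ⬝ᵥ (x - x')) ^ 2 := pow_le_pow_left₀ hW0 hw 2
  calc W ^ 2 ≤ qf Q⁻¹ (toR u) * qf Q (x - x') := h6.trans h1
    _ ≤ qf Q⁻¹ (toR u) * (2 + e * D) := mul_le_mul_of_nonneg_left h2 h5
    _ = _ := mul_comm _ _

end Pool.Agent.Helper1.FX
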