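import Mathlib
import Pool.Agent.Helper1.FX.NearMax
import Pool.Agent.Helper65.FX.EChain

/-!
# MP_be0fb5: the chain of the facet simplex, without moving facets

Every facet `w ∈ T` of the maximal polytope has a fixed normal form `a w` (values in `[0, 1]`, zero and one attained)
and a fixed label `lf w` with `a w (lf w) = 0`. The obtuse superbase of the facet simplex has a chain of lattice points
`P k` which are beyond facet `k` or inner with a facet `w k` of label `k`.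
-/

set_option autoImplicit false

namespace Pool.Agent.Helper1.FX.Max

open Matrix
open Pool.Agent.Helper12.LW (LFree toR)
open Pool.Agent.Helper84.FL (Superbase)
open Pool.Agent.Helper21.TET (chainS)
open Pool.Agent.Helper38.TET (Qg Qg_posDef Qg_form det_of_superb chainS_step)
open Pool.Agent.Helper65.FX (sperner_free)
open Pool.Agent.Helper36.FX (NearOpt)

namespace FacetOpt

variable {M : Set (Fin 3 → ℝ)} {T : Finset (Fin 3 → ℤ)} {v : (Fin 3 → ℤ) → Fin 3 → ℝ} {s : ℝ} {c : Fin 3 → ℝ}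
  {z : Fin 4 → Fin 3 → ℤ} {lam : Fin 4 → ℝ} {p : Fin 4 → Fin 3 → ℝ}

/-- renumbering of the four facets -/
theorem perm (h : FacetOpt M T v s c z lam p) (ρ : Equiv.Perm (Fin 4)) :
    FacetOpt M T v s c (fun k => z (ρ k)) (fun k => lam (ρ k)) (fun k => p (ρ k)) where
  free := h.free
  max := h.max
  wide := h.wide
  ne := h.ne
  memT := h.memT
  eq := h.eq
  rel := h.rel
  asym := h.asym
  inj := h.inj.comp ρ.injective
  zT := fun k => h.zT (ρ k)
  pos := fun k => h.pos (ρ k)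
  near := {
    one_le := h.near.one_le
    sum_v := (Equiv.sum_comp ρ fun k => lam k • v (z k)).trans h.near.sum_v
    sum_b := (Equiv.sum_comp ρ fun k => (lam k • v (z k)) ⬝ᵥ toR (z k)).trans h.near.sum_b
    le := fun k => h.near.le (ρ k)
    cmem := h.near.cmem
    centre := h.near.centre
    mem := fun k => h.near.mem (ρ k)
    val := fun k => h.near.val (ρ k) }

/-- the normals span -/
theorem spanning (h : FacetOpt M T v s c z lam p) (m : Fin 3 → ℝ) : ∃ a : Fin 4 → ℝ, ∑ k, a k • (lam k • v (z k)) = m := by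
  by_cases hm : m = 0
  · exact ⟨0, by simp [hm]⟩
  · obtain ⟨a, μ, hμ, -, -, -, -, hN⟩ := h.normal_form m hm
    refine ⟨fun k => -(a k / μ), ?_⟩
    -- compare both sides on every vector
    have h1 : ∀ x : Fin 3 → ℝ, (∑ k, -(a k / μ) • (lam k • v (z k))) ⬝ᵥ x = m ⬝ᵥ x := by
      intro x
      have h2 := hN x 0
      rw [dotProduct_zero, sub_zero] at h2
      have h3 : ∀ k, L v z lam k x - L v z lam k 0 = -((lam k • v (z k)) ⬝ᵥ x) := by
        intro k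
        simp only [L, dotProduct_zero]
        ring
      rw [← Finset.sum_sub_distrib] at h2
      have h4 : ∑ k, (a k * L v z lam k x - a k * L v z lam k 0) = -∑ k, a k * ((lam k • v (z k)) ⬝ᵥ x) := by
        rw [← Finset.sum_neg_distrib]
        refine Finset.sum_congr rfl fun k _ => ?_
        rw [← mul_sub, h3]
        ring
      rw [h4] at h2
      have h5 : m ⬝ᵥ x = -(∑ k, a k * ((lam k • v (z k)) ⬝ᵥ x)) / μ := by
        rw [h2]
        field_simp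
      rw [h5, sum_dotProduct, ← Finset.sum_neg_distrib, Finset.sum_div]
      refine Finset.sum_congr rfl fun k _ => ?_
      rw [smul_dotProduct (-(a k / μ)), smul_eq_mul]
      ring
    ext j
    have h6 := h1 (Pi.single j 1)
    simpa [dotProduct_single] using h6

end FacetOpt

/-- normal forms and labels of all facets -/
structure Forms (M : Set (Fin 3 → ℝ)) (T : Finset (Fin 3 → ℤ)) (v : (Fin 3 → ℤ) → Fin 3 → ℝ) (z : Fin 4 → Fin 3 → ℤ)
    (lam : Fin 4 → ℝ) (a : (Fin 3 → ℤ) → Fin 4 → ℝ) (lf : (Fin 3 → ℤ) → Fin 4) : Prop where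
  nonneg : ∀ w ∈ T, ∀ k, 0 ≤ a w k
  le_one : ∀ w ∈ T, ∀ k, a w k ≤ 1
  zero : ∀ w ∈ T, a w (lf w) = 0
  one : ∀ w ∈ T, ∃ t, a w t = 1
  valid : ∀ w ∈ T, ∀ x ∈ M, ∑ k, a w k * FacetOpt.L v z lam k x ≤ ∑ k, a w k * FacetOpt.L v z lam k (toR w)
  strict : ∀ w ∈ T, ∀ w' ∈ T, w ≠ w' → ∑ k, a w k * FacetOpt.L v z lam k (toR w') <
    ∑ k, a w k * FacetOpt.L v z lam k (toR w)
  beyond : ∀ x : Fin 3 → ℤ, ∃ w ∈ T, ∑ k, a w k * FacetOpt.L v z lam k (toR w) ≤ ∑ k, a w k * FacetOpt.L v z lam k (toR x)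

/-- the chain state: `f`, `P` and the facets `w` of the inner chain points -/
structure State (M : Set (Fin 3 → ℝ)) (T : Finset (Fin 3 → ℤ)) (v : (Fin 3 → ℤ) → Fin 3 → ℝ) (s : ℝ)
    (c : Fin 3 → ℝ) (z : Fin 4 → Fin 3 → ℤ) (lam : Fin 4 → ℝ) (p : Fin 4 → Fin 3 → ℝ)
    (a : (Fin 3 → ℤ) → Fin 4 → ℝ) (lf : (Fin 3 → ℤ) → Fin 4) (f P w : Fin 4 → Fin 3 → ℤ) : Prop where
  opt : FacetOpt M T v s c z lam p
  forms : Forms M T v z lam a lf
  sb : Superbase f
  step : ∀ k, P (k + 1) = P k + f k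
  obt : ∀ l m, l ≠ m → ∑ j, ((lam j • v (z j)) ⬝ᵥ toR (f l)) * ((lam j • v (z j)) ⬝ᵥ toR (f m)) ≤ 0
  lab : ∀ k, FacetOpt.L v z lam k (toR (P k)) ≤ 0 ∨ ((∀ j, 0 < FacetOpt.L v z lam j (toR (P k))) ∧ w k ∈ T ∧
    lf (w k) = k ∧ ∑ i, a (w k) i * FacetOpt.L v z lam i (toR (w k)) ≤ ∑ i, a (w k) i * FacetOpt.L v z lam i (toR (P k)))

theorem FacetOpt.exists_forms {M : Set (Fin 3 → ℝ)} {T : Finset (Fin 3 → ℤ)} {v : (Fin 3 → ℤ) → Fin 3 → ℝ} {s : ℝ}
    {c : Fin 3 → ℝ} {z : Fin 4 → Fin 3 → ℤ} {lam : Fin 4 → ℝ} {p : Fin 4 → Fin 3 → ℝ} (h : FacetOpt M T v s c z lam p) :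
    ∃ a lf, Forms M T v z lam a lf := by
  classical
  have h1 : ∀ w : Fin 3 → ℤ, ∃ (a : Fin 4 → ℝ) (l : Fin 4), w ∈ T → ((∀ k, 0 ≤ a k) ∧ (∀ k, a k ≤ 1) ∧ a l = 0 ∧
      (∃ t, a t = 1) ∧ ∃ μ : ℝ, 0 < μ ∧
      ∀ x y, ∑ k, a k * L v z lam k x - ∑ k, a k * L v z lam k y = μ * (v w ⬝ᵥ x - v w ⬝ᵥ y)) := by
    intro w
    by_cases hw : w ∈ T
    · obtain ⟨a, μ, hμ, h0, h1, ⟨l, hl⟩, ht, hN⟩ := h.normal_form (v w) (h.ne w hw)
      exact ⟨a, l, fun _ => ⟨h0, h1, hl, ht, μ, hμ, hN⟩⟩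
    · exact ⟨0, 0, fun h => absurd h hw⟩
  choose a lf hall using h1
  refine ⟨a, lf, ?_⟩
  constructor
  · exact fun w hw => (hall w hw).1
  · exact fun w hw => (hall w hw).2.1
  · exact fun w hw => (hall w hw).2.2.1
  · exact fun w hw => (hall w hw).2.2.2.1
  · intro w hw x hx
    obtain ⟨μ, hμ, hN⟩ := (hall w hw).2.2.2.2
    have h2 := hN x (toR w)
    rw [h.eq] at hx
    have h3 := mul_nonneg hμ.le (sub_nonneg.2 (hx w hw))
    linarith
  · intro w hw w' hw' hne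
    obtain ⟨μ, hμ, hN⟩ := (hall w hw).2.2.2.2
    have h2 := hN (toR w') (toR w)
    have h3 := mul_pos hμ (sub_pos.2 (h.rel w' hw' w hw hne))
    linarith
  · intro x
    obtain ⟨w, hw, hx⟩ := h.exists_facet x
    obtain ⟨μ, hμ, hN⟩ := (hall w hw).2.2.2.2
    refine ⟨w, hw, ?_⟩
    have h2 := hN (toR x) (toR w)
    have h3 := mul_nonneg hμ.le (sub_nonneg.2 hx)
    linarith

theorem Forms.perm {M : Set (Fin 3 → ℝ)} {T : Finset (Fin 3 → ℤ)} {v : (Fin 3 → ℤ) → Fin 3 → ℝ}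
    {z : Fin 4 → Fin 3 → ℤ} {lam : Fin 4 → ℝ} {a : (Fin 3 → ℤ) → Fin 4 → ℝ} {lf : (Fin 3 → ℤ) → Fin 4}
    (h : Forms M T v z lam a lf) (ρ : Equiv.Perm (Fin 4)) :
    Forms M T v (fun k => z (ρ k)) (fun k => lam (ρ k)) (fun w k => a w (ρ k)) (fun w => ρ.symm (lf w)) := by
  have h1 : ∀ (w : Fin 3 → ℤ) (x : Fin 3 → ℝ), ∑ k, a w (ρ k) * FacetOpt.L v (fun k => z (ρ k)) (fun k => lam (ρ k)) k x =
      ∑ k, a w k * FacetOpt.L v z lam k x :=
    fun w x => Equiv.sum_comp ρ fun k => a w k * FacetOpt.L v z lam k x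
  constructor
  · exact fun w hw k => h.nonneg w hw _
  · exact fun w hw k => h.le_one w hw _
  · intro w hw
    rw [Equiv.apply_symm_apply]
    exact h.zero w hw
  · intro w hw
    obtain ⟨t, ht⟩ := h.one w hw
    exact ⟨ρ.symm t, by rw [Equiv.apply_symm_apply]; exact ht⟩
  · intro w hw x hx
    rw [h1, h1]
    exact h.valid w hw x hx
  · intro w hw w' hw' hne
    rw [h1, h1]
    exact h.strict w hw w' hw' hne
  · intro x
    obtain ⟨w, hw, hx⟩ := h.beyond x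
    refine ⟨w, hw, ?_⟩
    rw [h1, h1]
    exact hx

/-- **The chain state of a wide lattice-free body.** -/
theorem exists_state {K : Set (Fin 3 → ℝ)} (hK : LFree K)
    (hw : ¬ Pool.Agent.Helper84.FL.WidthLe K (2 + Real.sqrt 2)) :
    ∃ M T v s c z lam p a lf f P w, K ⊆ M ∧ State M T v s c z lam p a lf f P w := by
  classical
  obtain ⟨M, T, v, s, c, z, lam, p, hKM, h⟩ := exists_facetOpt hK hw
  obtain ⟨a, lf, hF⟩ := h.exists_forms
  choose wf hwf hwf' using hF.beyond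
  obtain ⟨g, hg⟩ : ∃ g : Fin 4 → Fin 3 → ℝ, g = fun k => lam k • v (z k) := ⟨_, rfl⟩
  have hspan : ∀ m : Fin 3 → ℝ, ∃ c : Fin 4 → ℝ, ∑ k, c k • g k = m := by rw [hg]; exact h.spanning
  have hgs : ∑ k, g k = 0 := by rw [hg]; exact h.near.sum_v
  obtain ⟨f, u, hfu, hob⟩ := Pool.Agent.Helper22.Sym.selling (Qg g) (Qg_posDef g hspan)
  have hdet := det_of_superb f u hfu
  have hsb := Pool.Agent.Helper1.UB.LW.superbase_of_det f hfu.1 hdet
  obtain ⟨y, σ, ρ, hz⟩ := sperner_free g (fun k => g k ⬝ᵥ toR (z k)) hgs hspan (fun x => lf (wf x)) f hfu.1 hdet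
  refine ⟨M, T, v, s, c, fun k => z (ρ k), fun k => lam (ρ k), fun k => p (ρ k), fun w k => a w (ρ k),
    fun w => ρ.symm (lf w), fun l => f (σ l), fun k => y + chainS f σ k, fun k => wf (y + chainS f σ k), hKM,
    h.perm ρ, hF.perm ρ, ⟨?_, fun w => ?_⟩, ?_, ?_, ?_⟩
  · rw [Equiv.sum_comp σ f, hfu.1]
  · obtain ⟨a, ha⟩ := hsb.span w
    refine ⟨fun l => a (σ l), ?_⟩
    rw [ha]
    exact (Equiv.sum_comp σ fun l => a l • f l).symm
  · intro k
    show y + chainS f σ (k + 1) = y + chainS f σ k + f (σ k)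
    rw [chainS_step f hfu.1, add_assoc]
  · intro l m hlm
    have h2 := hob (σ l) (σ m) fun h => hlm (σ.injective h)
    have h3 : (Pool.Agent.Helper22.Sym.toR (f (σ l))) ⬝ᵥ Qg g *ᵥ
        (Pool.Agent.Helper22.Sym.toR (f (σ m))) = ∑ j, (g j ⬝ᵥ toR (f (σ l))) * (g j ⬝ᵥ toR (f (σ m))) :=
      Qg_form g _ _
    rw [h3, ← Equiv.sum_comp ρ fun j => (g j ⬝ᵥ toR (f (σ l))) * (g j ⬝ᵥ toR (f (σ m))), hg] at h2
    exact h2
  · intro k
    rcases hz k with h4 | ⟨h4, h5⟩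
    · left
      rw [hg] at h4
      exact sub_nonpos.2 h4
    · right
      refine ⟨fun j => ?_, hwf _, ?_, ?_⟩
      · have h6 := h4 (ρ j)
        rw [hg] at h6
        exact sub_pos.2 h6
      · exact (Equiv.symm_apply_eq ρ).2 h5
      · have h6 := hwf' (y + chainS f σ k)
        have h1 : ∀ (w : Fin 3 → ℤ) (x : Fin 3 → ℝ),
            ∑ k, a w (ρ k) * FacetOpt.L v (fun k => z (ρ k)) (fun k => lam (ρ k)) k x =
            ∑ k, a w k * FacetOpt.L v z lam k x :=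
          fun w x => Equiv.sum_comp ρ fun k => a w k * FacetOpt.L v z lam k x
        rw [h1, h1]
        exact h6

end Pool.Agent.Helper1.FX.Max

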